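import Pool.Agent.X133.QE.Det
import Pool.Agent.X133.LL.Abs

/-! Quantum ergodicity in all boxes, from any profile of the resolvent. -/

set_option autoImplicit false
set_option linter.unusedSectionVars false

open scoped BigOperators Topology
open MeasureTheory Filter Set

namespace Pool.Agent.X133.QE

open Pool.Agent.W788.BK
open Pool.Agent.H4R2.LO (Zd)
open Pool.Agent.W788.BK.Num
open Pool.Agent.TH794.QD
open Pool.Agent.TH794.QE
open Pool.Agent.TH794.HK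
open Pool.Agent.X133.LL

variable {d : ℕ}

/-- the phase around a site -/
theorem phase_norm (p : Fin d → ℝ) (x : Zd d) (g : Zd d → ℂ) :
    ‖∑' y, (starRingEnd ℂ) (ph p y) * ((‖g (y - x)‖ ^ 2 : ℝ) : ℂ)‖ =
      ‖∑' y, ph p y * ((‖g y‖ ^ 2 : ℝ) : ℂ)‖ := by
  have h1 : ∑' y, (starRingEnd ℂ) (ph p y) * ((‖g (y - x)‖ ^ 2 : ℝ) : ℂ) =
      ∑' y, (starRingEnd ℂ) (ph p x) * ((starRingEnd ℂ) (ph p y) * ((‖g y‖ ^ 2 : ℝ) : ℂ)) := by
    rw [← (Equiv.addRight x).tsum_eq fun y => (starRingEnd ℂ) (ph p y) *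
      ((‖g (y - x)‖ ^ 2 : ℝ) : ℂ)]
    refine tsum_congr fun y => ?_
    simp only [Equiv.coe_addRight, add_sub_cancel_right]
    have h2 : ph p (y + x) = ph p x * ph p y := by
      unfold ph
      rw [← Complex.exp_add]
      congr 1
      push_cast [Pi.add_apply]
      rw [← mul_add, ← Finset.sum_add_distrib]
      congr 1
      refine Finset.sum_congr rfl fun i _ => ?_
      ring
    rw [h2, map_mul]
    ring
  rw [h1, tsum_mul_left, norm_mul, Complex.norm_conj, ph_norm, one_mul]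
  have h3 : ∀ y, (starRingEnd ℂ) (ph p y) * ((‖g y‖ ^ 2 : ℝ) : ℂ) =
      (starRingEnd ℂ) (ph p y * ((‖g y‖ ^ 2 : ℝ) : ℂ)) := by
    intro y
    rw [map_mul, Complex.conj_ofReal]
  rw [tsum_congr h3, ← Complex.conj_tsum, Complex.norm_conj]

/-- the bound of the profile -/
theorem Tg_le {γ0 γ1 : ℝ → ℂ} {η s2 E m C Q : ℝ} {p : Fin d → ℝ} (hm : 0 < m)
    (h1 : m ≤ (γ1 E).im) (h2 : (γ1 E).im ≤ (γ0 E).im) (h3 : (γ0 E).im ≤ C)
    (hη : 0 < η) (hs2 : 0 < s2) (hQ : Q ≤ (∑ i, p i ^ 2) / (η * s2)) (hQ0 : 0 ≤ Q) :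
    |Tg γ0 γ1 η s2 E p| ≤ C / (1 + Q * (m / C ^ 2)) := by
  have hG : 0 < (γ0 E).im := hm.trans_le (h1.trans h2)
  have hC : 0 < C := hG.trans_le h3
  have hp : 0 ≤ ∑ i, p i ^ 2 := Finset.sum_nonneg fun i _ => sq_nonneg _
  have h4 : m / C ^ 2 ≤ (γ1 E).im / (γ0 E).im ^ 2 := by
    apply div_le_div₀ (hm.le.trans h1) h1 (by positivity)
    exact pow_le_pow_left₀ hG.le h3 2
  unfold Tg
  have h5 : 0 ≤ (γ1 E).im / (γ0 E).im ^ 2 := le_trans (by positivity) h4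
  have h6 : 0 ≤ (∑ i, p i ^ 2) / (η * s2) := by positivity
  rw [abs_of_nonneg (by positivity)]
  apply div_le_div₀ hC.le h3 (by positivity)
  have h7 : Q * (m / C ^ 2) ≤ (∑ i, p i ^ 2) / (η * s2) * ((γ1 E).im / (γ0 E).im ^ 2) :=
    mul_le_mul hQ h4 (by positivity) h6
  linarith

/-- **from the profile of the resolvent to the matrix elements in all boxes** -/
theorem qe_abs (d : ℕ) (hd1 : 1 ≤ d) (m C ε v Vb : ℝ) (hm : 0 < m) (hC0 : 0 ≤ C) (hε : 0 < ε)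
    (hv : 0 < v) (hVb0 : 0 < Vb) :
    ∃ K c1 : ℝ, 16 ≤ K ∧ 0 < c1 ∧ ∀ A : ℝ, 0 < A → ∃ (N : ℕ) (err0 lam0 : ℝ),
    1 ≤ N ∧ 0 < err0 ∧ 0 < lam0 ∧
    ∀ c : ℝ, 0 < c → c ≤ lam0 → ∀ (μ : Measure ℝ) [IsProbabilityMeasure μ], ∀ Mn V : ℝ,
      v ≤ V → V ≤ Vb ^ 2 → ∀ (Bd : ℝ → Prop) (γ0 γ1 : ℝ → ℂ),
      (∀ E, Bd E → m ≤ (γ1 E).im ∧ (γ1 E).im ≤ (γ0 E).im ∧ (γ0 E).im ≤ C) →
      ∀ lo hi err : ℝ, c ^ (81 / 40 : ℝ) ≤ lo → hi ≤ 1 → 0 ≤ err → err ≤ err0 →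
      ∀ G1 : Set (Zd d → ℝ), MeasurableSet G1 →
      (∀ ω ∈ G1, ∀ e : ℝ, Bd (2 * d + c * Mn - e) → ∀ η : ℝ, lo ≤ η → η ≤ hi →
        (∃ u, Rs d (fun x => 2 * d + c * ω x) 0 e η u) ∧
        ∀ u, Rs d (fun x => 2 * d + c * ω x) 0 e η u →
        ∀ p : Fin d → ℝ, ∑ i, p i ^ 2 ≤ (N : ℝ) ^ 2 * (η * (c ^ 2 * V)) →
          ‖((η : ℝ) : ℂ) * ∑' y, ph p (y - 0) * ((‖u y‖ ^ 2 : ℝ) : ℂ) -
            ((Tg γ0 γ1 η (c ^ 2 * V) (2 * d + c * Mn - e) p : ℝ) : ℂ)‖ ≤ err) →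
      ∃ G : Set (Zd d → ℝ), MeasurableSet G ∧
        1 - 10 ^ d * (Measure.infinitePi fun _ : Zd d => μ).real G1ᶜ / c ^ 3 ≤
          (Measure.infinitePi fun _ : Zd d => μ).real G ∧
        ∀ ω ∈ G, ∀ L : ℕ, 1 / c ^ 9 ≤ (L : ℝ) → ∀ e : ℝ,
          (∀ e' : ℝ, |e' - e| ≤ hi → Bd (2 * d + c * Mn - e')) →
          ∀ s : ℝ, K * lo ≤ s → 2 * (K * s) ≤ hi →
          ∀ (ι : Type) [Fintype ι] (u : ι → Zd d → ℂ) (En : ι → ℝ),
            EF (Bx 0 L) (fun x => 2 * d + c * ω x) u En →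
            Fintype.card ι = (Bx (0 : Zd d) L).card →
            m / 512 * s * (Bx (0 : Zd d) L).card ≤ (Nat.card {n : ι // |En n - e| ≤ s} : ℝ) ∧
            ∀ p : Fin d → ℝ, c1 * (c ^ 2 * s) ≤ ∑ i, p i ^ 2 → ∑ i, p i ^ 2 ≤ A * (c ^ 2 * s) →
              ∑ m, ∑ n, (if |En m - e| ≤ s ∧ |En n - En m| ≤ s / K then
                ‖Am (Bx 0 L) u (ph p) m n‖ ^ 2 else 0) ≤ ε * s * (Bx (0 : Zd d) L).card := by
  have hd0 : (0 : ℝ) < d := by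
    have : 0 < d := by omega
    exact_mod_cast this
  obtain ⟨K, hKd⟩ : ∃ K, K = 16 + 640 * (2 * (C + 1) + 2) / ε := ⟨_, rfl⟩
  have hK16 : 16 ≤ K := by
    rw [hKd]
    have : 0 ≤ 640 * (2 * (C + 1) + 2) / ε := by positivity
    linarith
  have hK0 : 0 < K := by linarith
  obtain ⟨c1, hc1d⟩ : ∃ c1, c1 = 2 * K * Vb ^ 2 * (4000 * (C + 1) / ε) * ((C + 1) ^ 2 / m) := ⟨_, rfl⟩
  have hc1 : 0 < c1 := by rw [hc1d]; positivity
  refine ⟨K, c1, hK16, hc1, fun A hA => ?_⟩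
  obtain ⟨N, hN⟩ := exists_nat_ge (max 1 (A * K / v))
  have hN1 : (1 : ℝ) ≤ N := (le_max_left _ _).trans hN
  have hN2 : A * K / v ≤ N := (le_max_right _ _).trans hN
  have hNN : A * K / v ≤ (N : ℝ) ^ 2 := hN2.trans (by nlinarith)
  obtain ⟨δ, hδd⟩ : ∃ δ, δ = min 1 (ε / (8000 * (C + 1))) := ⟨_, rfl⟩
  have hδ : 0 < δ := by rw [hδd]; exact lt_min one_pos (by positivity)
  have hδ1 : δ ≤ 1 := by rw [hδd]; exact min_le_left _ _
  have hδ2 : 500 * (δ * (C + 1)) ≤ ε / 16 := by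
    have h1 : δ ≤ ε / (8000 * (C + 1)) := by rw [hδd]; exact min_le_right _ _
    rw [le_div_iff₀ (by positivity)] at h1
    linarith
  have hev : ∀ᶠ c in 𝓝[>] (0 : ℝ),
      ((16 * (d : ℝ) ^ 3) * c ^ (15 / 8 : ℝ) ≤ min (1 / 4) (ε / 16000)) ∧
      (((1 + 1 / δ) * (16 * (d : ℝ) ^ 3)) * c ^ (15 / 8 : ℝ) ≤ min (1 / 4) (ε / 16000)) ∧
      (256 * 16 ^ 5 * (d : ℝ) ^ 3 * c ^ (15 / 8 : ℝ) ≤ m) ∧
      ((1 + 2 * (d : ℝ)) * c ^ (39 / 40 : ℝ) ≤ min (1 / 4) (ε / 16000)) ∧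
      ((1 + 2 * (d : ℝ)) * c ^ (3 : ℝ) ≤ 1 / 2) ∧
      (1 * c ^ (1 : ℝ) ≤ 1 / 2) := by
    have hmin : 0 < min (1 / 4) (ε / 16000) := lt_min (by norm_num) (by positivity)
    filter_upwards [ev_pow (16 * (d : ℝ) ^ 3) _ (15 / 8) hmin (by norm_num),
      ev_pow ((1 + 1 / δ) * (16 * (d : ℝ) ^ 3)) _ (15 / 8) hmin (by norm_num),
      ev_pow (256 * 16 ^ 5 * (d : ℝ) ^ 3) m (15 / 8) hm (by norm_num),
      ev_pow (1 + 2 * (d : ℝ)) _ (39 / 40) hmin (by norm_num),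
      ev_pow (1 + 2 * (d : ℝ)) (1 / 2) 3 (by norm_num) (by norm_num),
      ev_pow 1 (1 / 2) 1 (by norm_num) one_pos]
      with c h2 h3 h4 h6 h7 h10
    exact ⟨h2, h3, h4, h6, h7, h10⟩
  obtain ⟨lam0, hlam0, hev2⟩ := mem_nhdsGT_iff_exists_Ioc_subset.1 hev
  refine ⟨N, min 1 (min (ε / 8000) (m / 24)), lam0, by exact_mod_cast hN1, by positivity, hlam0, ?_⟩
  intro c hc hcl μ hμ Mn V hVv hVb Bd γ0 γ1 hl lo hi err hlo hhi herr0 herr G1 hG1m hG1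
  have hVpos : 0 < V := hv.trans_le hVv
  obtain ⟨n2, n3, n4, n6, n7, n10⟩ := hev2 ⟨hc, hcl⟩
  rw [one_mul, Real.rpow_one] at n10
  have hc12 : c ≤ 1 / 2 := n10
  have hcle : c ≤ 1 := by linarith
  have herr1 : err ≤ 1 := herr.trans (min_le_left _ _)
  have herr2 : err ≤ ε / 8000 := herr.trans ((min_le_right _ _).trans (min_le_left _ _))
  have herr3 : err ≤ m / 24 := herr.trans ((min_le_right _ _).trans (min_le_right _ _))
  obtain ⟨hm1, hm2⟩ := maximal (d := d) μ G1ᶜ hG1m.compl (c ^ 3) (by positivity)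
  refine ⟨{ω | ∃ L : ℕ, c ^ 3 * ((Bx (0 : Fin d → ℤ) L).card : ℝ) <
      (bad G1ᶜ ω (Bx 0 L)).card}ᶜ, hm1.compl, ?_, ?_⟩
  · rw [probReal_compl_eq_one_sub hm1]
    linarith
  intro ω hω L hL e hBde s hs hs2 ι _ u En hEF hcard
  have hbadL : ((bad G1ᶜ ω (Bx 0 L)).card : ℝ) ≤ c ^ 3 * ((Bx (0 : Fin d → ℤ) L).card : ℝ) := by
    by_contra hcon
    exact hω ⟨L, not_le.1 hcon⟩
  -- the scale
  have hlo0 : 0 < lo := lt_of_lt_of_le (by positivity) hlo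
  have hloK : lo ≤ s / K := by rw [le_div_iff₀ hK0]; linarith
  have hs0 : 0 < s := lt_of_lt_of_le (by positivity) hs
  have hsK : s / K ≤ s := div_le_self hs0.le (by linarith)
  have hlos : lo ≤ s := hloK.trans hsK
  have hlo16 : lo ≤ s / 16 := hloK.trans (by
    apply div_le_div_of_nonneg_left hs0.le (by norm_num) hK16)
  have hKss : s ≤ K * s := le_mul_of_one_le_left hs0.le (by linarith)
  have hKs0 : 0 < K * s := by positivity
  have hshi : s ≤ hi := by linarith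
  have hs1 : s ≤ 1 := hshi.trans hhi
  have hs162 : s / 16 ≤ hi := by linarith
  -- the radius
  obtain ⟨R, hR⟩ : ∃ R : ℕ, R = ⌈(c ^ 6)⁻¹⌉₊ := ⟨_, rfl⟩
  obtain ⟨hR1, hR2, hR3⟩ := radius c hc hcle
  rw [← hR] at hR1 hR2 hR3
  have hc9 : (0 : ℝ) < c ^ 9 := by positivity
  have hL0 : (0 : ℝ) < L := lt_of_lt_of_le (by positivity) hL
  have hRL1 : (R : ℝ) ≤ 2 * c ^ 3 * L := by
    have h1 : 2 * (c ^ 6)⁻¹ = 2 * c ^ 3 * (1 / c ^ 9) := by
      field_simp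
    calc (R : ℝ) ≤ 2 * (c ^ 6)⁻¹ := hR2
      _ = 2 * c ^ 3 * (1 / c ^ 9) := h1
      _ ≤ 2 * c ^ 3 * L := by gcongr
  have hc3 : c ^ 3 ≤ 1 / 8 := by
    have : c ^ 3 ≤ (1 / 2) ^ 3 := pow_le_pow_left₀ hc.le hc12 3
    linarith
  have hRL : R ≤ L := by
    have h1 : (R : ℝ) ≤ L := by
      have := mul_le_mul_of_nonneg_right hc3 hL0.le
      linarith
    exact_mod_cast h1
  have hLpos : 0 < L := by exact_mod_cast hL0
  -- the bad set
  obtain ⟨B, hBd⟩ : ∃ B, B = bad G1ᶜ ω (Bx 0 L) ∪ (Bx (0 : Zd d) L \ Bx 0 (L - R)) := ⟨_, rfl⟩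
  have hB : B ⊆ Bx 0 L := by
    rw [hBd]
    apply Finset.union_subset
    · intro y hy
      exact (mem_bad.1 hy).1
    · exact Finset.sdiff_subset
  obtain ⟨Lc, hLc⟩ : ∃ Lc : ℝ, Lc = ((Bx (0 : Zd d) L).card : ℝ) := ⟨_, rfl⟩
  have hLc0 : 0 ≤ Lc := by rw [hLc]; exact Nat.cast_nonneg _
  have hBc : (B.card : ℝ) ≤ (1 + 2 * d) * c ^ 3 * Lc := by
    have h1 : (B.card : ℝ) ≤ (bad G1ᶜ ω (Bx 0 L)).card +
        ((Bx (0 : Zd d) L \ Bx 0 (L - R)).card : ℝ) := by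
      rw [hBd]
      exact_mod_cast Finset.card_union_le _ _
    have h2 := shallow (d := d) L R hRL hLpos
    have h3 : (d : ℝ) * R / L ≤ d * (2 * c ^ 3) := by
      rw [div_le_iff₀ hL0, mul_assoc]
      gcongr
    have h4 : (d : ℝ) * R / L * (Bx (0 : Zd d) L).card ≤ d * (2 * c ^ 3) * Lc := by
      rw [← hLc]
      gcongr
    rw [← hLc] at hbadL
    linarith
  have hdeep : ∀ x0 ∈ Bx (0 : Zd d) L \ B, ∀ y, y ∉ Bx (0 : Zd d) L → (R : ℝ) ≤ ‖y - x0‖ := by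
    intro x0 hx0 y hy
    rw [Finset.mem_sdiff, hBd, Finset.mem_union, not_or] at hx0
    have h1 : x0 ∈ Bx (0 : Zd d) (L - R) := by
      by_contra hcon
      exact hx0.2.2 (Finset.mem_sdiff.2 ⟨hx0.1, hcon⟩)
    exact deep L R hRL x0 h1 y hy
  have hgood : ∀ x0 ∈ Bx (0 : Zd d) L \ B, sh x0 ω ∈ G1 := by
    intro x0 hx0
    rw [Finset.mem_sdiff, hBd, Finset.mem_union, not_or] at hx0
    by_contra hcon
    exact hx0.2.1 (mem_bad.2 ⟨hx0.1, hcon⟩)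
  have hR12 : 1 / (R : ℝ) ^ 2 ≤ c ^ 12 := by
    have h2 : ((c ^ 6)⁻¹) ^ 2 ≤ (R : ℝ) ^ 2 := pow_le_pow_left₀ (by positivity) hR1 2
    rw [div_le_iff₀ (by positivity)]
    calc (1 : ℝ) = c ^ 12 * ((c ^ 6)⁻¹) ^ 2 := by
          field_simp
      _ ≤ c ^ 12 * (R : ℝ) ^ 2 := by gcongr
  have hfar : ∀ η : ℝ, lo ≤ η → 16 * (d : ℝ) ^ 3 * (η⁻¹) ^ 4 / (R : ℝ) ^ 2 ≤
      16 * (d : ℝ) ^ 3 * (η * c ^ (15 / 8 : ℝ)) := by
    intro η hη
    have hsc := scale c η hc (hlo.trans hη)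
    have hη0 : 0 < η := hlo0.trans_le hη
    calc 16 * (d : ℝ) ^ 3 * (η⁻¹) ^ 4 / (R : ℝ) ^ 2 =
          16 * (d : ℝ) ^ 3 * ((η⁻¹) ^ 4 * (1 / (R : ℝ) ^ 2)) := by ring
      _ ≤ 16 * (d : ℝ) ^ 3 * ((η⁻¹) ^ 4 * c ^ 12) := by gcongr
      _ ≤ _ := by gcongr
  have hB2 : (B.card : ℝ) ≤ 1 / 2 * Lc := by
    refine hBc.trans ?_
    apply mul_le_mul_of_nonneg_right _ hLc0
    rw [← Real.rpow_natCast c 3]
    exact_mod_cast n7
  obtain ⟨i0⟩ : Nonempty (Fin d) := ⟨⟨0, by omega⟩⟩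
  -- the profile
  obtain ⟨K', hK'd⟩ : ∃ K', K' = 16 * (d : ℝ) ^ 3 * c ^ (15 / 8 : ℝ) := ⟨_, rfl⟩
  have hK'0 : 0 ≤ K' := by rw [hK'd]; positivity
  have hprof : ∀ x0 ∈ Bx (0 : Zd d) L \ B, ∀ e' : ℝ, |e' - e| ≤ hi → ∀ η : ℝ, lo ≤ η → η ≤ hi →
      ∀ p : Fin d → ℝ, ∑ i, p i ^ 2 ≤ A * (c ^ 2 * s) → s / K ≤ η → ∀ Q : ℝ, 0 ≤ Q →
      Q ≤ (∑ i, p i ^ 2) / (η * (c ^ 2 * V)) →
      ∃ g, SiteOK (Bx 0 L) (fun x => 2 * d + c * ω x) (ph p) x0 e' η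
        (C / (1 + Q * (m / C ^ 2)) + err) (C + 1) K' g := by
    intro x0 hx0 e' he' η hη1 hη2 p hp hηK Q hQ0 hQ
    have hη0 : 0 < η := hlo0.trans_le hη1
    have hη1' : η ≤ 1 := hη2.trans hhi
    have hB' := hBde e' he'
    obtain ⟨hl1, hl2, hl3⟩ := hl _ hB'
    obtain ⟨⟨g, hg⟩, hprf⟩ := hG1 _ (hgood x0 hx0) e' hB' η hη1 hη2
    have hgs := rs_unshift hg
    have hCpos : 0 < C := hm.trans_le (hl1.trans (hl2.trans hl3))
    have hfm := far_mass hgs hη0 hη1' (Bx 0 L) R hR3 (hdeep x0 hx0)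
    have hkm := kk_far hgs hη0 hη1' (Bx 0 L) R hR3 (hdeep x0 hx0)
    have hc18 : 0 < c ^ (15 / 8 : ℝ) := by positivity
    have hb0 := hfar η hη1
    refine ⟨fun y => g (y - x0), hgs, ?_, ?_, ?_, ?_⟩
    · rw [phase_norm]
      have hpN : ∑ i, p i ^ 2 ≤ (N : ℝ) ^ 2 * (η * (c ^ 2 * V)) := by
        refine hp.trans ?_
        have h1 : s ≤ K * η := by
          rw [div_le_iff₀ hK0] at hηK
          linarith
        have h2 : A * K ≤ (N : ℝ) ^ 2 * V := by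
          rw [div_le_iff₀ hv] at hNN
          exact hNN.trans (by gcongr)
        calc A * (c ^ 2 * s) ≤ A * (c ^ 2 * (K * η)) := by gcongr
          _ = A * K * (c ^ 2 * η) := by ring
          _ ≤ (N : ℝ) ^ 2 * V * (c ^ 2 * η) := by gcongr
          _ = _ := by ring
      have h1 := hprf g hg p hpN
      simp only [sub_zero] at h1
      have h2 := Tg_le (d := d) (p := p) (η := η) (s2 := c ^ 2 * V) (Q := Q) hm hl1 hl2 hl3 hη0
        (by positivity) hQ hQ0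
      rw [le_div_iff₀ hη0]
      have h3 : ‖∑' y, ph p y * ((‖g y‖ ^ 2 : ℝ) : ℂ)‖ * η =
          ‖((η : ℝ) : ℂ) * ∑' y, ph p y * ((‖g y‖ ^ 2 : ℝ) : ℂ)‖ := by
        rw [norm_mul, Complex.norm_real, Real.norm_of_nonneg hη0.le, mul_comm]
      rw [h3]
      have h4 := norm_add_le (((η : ℝ) : ℂ) * ∑' y, ph p y * ((‖g y‖ ^ 2 : ℝ) : ℂ) -
        ((Tg γ0 γ1 η (c ^ 2 * V) (2 * d + c * Mn - e') p : ℝ) : ℂ))
        ((Tg γ0 γ1 η (c ^ 2 * V) (2 * d + c * Mn - e') p : ℝ) : ℂ)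
      rw [sub_add_cancel, Complex.norm_real, Real.norm_eq_abs] at h4
      linarith
    · have h1 := hprf g hg 0 (by simp; positivity)
      have h2 : Tg γ0 γ1 η (c ^ 2 * V) (2 * d + c * Mn - e') (0 : Fin d → ℝ) =
          (γ0 (2 * d + c * Mn - e')).im := by
        unfold Tg
        simp
      have h3 : ∀ y : Zd d, ph (0 : Fin d → ℝ) (y - 0) = 1 := by
        intro y
        unfold ph
        simp
      rw [h2, tsum_congr fun y => by rw [h3 y, one_mul], ← Complex.ofReal_tsum,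
        ← Complex.ofReal_mul, ← Complex.ofReal_sub, Complex.norm_real, Real.norm_eq_abs] at h1
      have h4 : ∑' y, ‖g (y - x0)‖ ^ 2 = ∑' y, ‖g y‖ ^ 2 :=
        (Equiv.subRight x0).tsum_eq fun y => ‖g y‖ ^ 2
      rw [h4, le_div_iff₀ hη0]
      have h5 := (abs_le.1 h1).2
      linarith
    · refine hkm.trans (hb0.trans (le_of_eq ?_))
      rw [hK'd]
      ring
    · refine hfm.trans ?_
      have h1 : 4 * (d : ℝ) * (η⁻¹) ^ 4 / (R : ℝ) ^ 2 ≤ 16 * (d : ℝ) ^ 3 * (η⁻¹) ^ 4 / (R : ℝ) ^ 2 := by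
        have hd1' : (1 : ℝ) ≤ d := by exact_mod_cast hd1
        gcongr
        · norm_num
        · exact le_self_pow₀ hd1' (by norm_num)
      refine h1.trans (hb0.trans ?_)
      rw [hK'd, le_div_iff₀ hη0]
      have h2 : η * η ≤ 1 := mul_le_one₀ hη1' hη0.le hη1'
      calc 16 * (d : ℝ) ^ 3 * (η * c ^ (15 / 8 : ℝ)) * η =
            16 * (d : ℝ) ^ 3 * c ^ (15 / 8 : ℝ) * (η * η) := by ring
        _ ≤ 16 * (d : ℝ) ^ 3 * c ^ (15 / 8 : ℝ) * 1 := by gcongr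
        _ = _ := mul_one _
  constructor
  · have hBde0 := hBde e (by rw [sub_self, abs_zero]; linarith)
    obtain ⟨hl1, hl2, hl3⟩ := hl _ hBde0
    have hmG0 : m ≤ (γ0 (2 * d + c * Mn - e)).im := hl1.trans hl2
    have hmass : ∀ x0 ∈ Bx (0 : Zd d) L \ B, ∀ η : ℝ, lo ≤ η → η ≤ hi → ∃ g,
        Rs d (fun x => 2 * d + c * ω x) x0 e η g ∧
        |η * ∑' y, ‖g y‖ ^ 2 - (γ0 (2 * d + c * Mn - e)).im| ≤ err := by
      intro x0 hx0 η hη1 hη2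
      have hη0 : 0 < η := hlo0.trans_le hη1
      obtain ⟨⟨g, hg⟩, hprf⟩ := hG1 _ (hgood x0 hx0) e hBde0 η hη1 hη2
      refine ⟨fun y => g (y - x0), rs_unshift hg, ?_⟩
      have h1 := hprf g hg 0 (by simp; positivity)
      have h2 : Tg γ0 γ1 η (c ^ 2 * V) (2 * d + c * Mn - e) (0 : Fin d → ℝ) =
          (γ0 (2 * d + c * Mn - e)).im := by
        unfold Tg
        simp
      have h3 : ∀ y : Zd d, ph (0 : Fin d → ℝ) (y - 0) = 1 := by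
        intro y
        unfold ph
        simp
      rw [h2, tsum_congr fun y => by rw [h3 y, one_mul], ← Complex.ofReal_tsum,
        ← Complex.ofReal_mul, ← Complex.ofReal_sub, Complex.norm_real, Real.norm_eq_abs] at h1
      have h4 : ∑' y, ‖g (y - x0)‖ ^ 2 = ∑' y, ‖g y‖ ^ 2 :=
        (Equiv.subRight x0).tsum_eq fun y => ‖g y‖ ^ 2
      rw [h4]
      exact h1
    refine low_final (R := R) (G0 := (γ0 (2 * d + c * Mn - e)).im) (err := err) hEF hcard B hB hs0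
      hs1 (fun x0 hx0 => ?_) hdeep hR3 hd1 hmG0 hm herr3 ?_ ?_
    · obtain ⟨g, hg⟩ := hmass x0 hx0 (s / 16) hlo16 hs162
      obtain ⟨g', hg'⟩ := hmass x0 hx0 s hlos hshi
      exact ⟨g, g', hg.1, hg'.1, hg.2, hg'.2⟩
    · have e1 : 256 * (d : ℝ) ^ 3 * ((s / 16)⁻¹) ^ 4 / (R : ℝ) ^ 2 =
          16 * 16 ^ 4 * (16 * (d : ℝ) ^ 3 * (s⁻¹) ^ 4 / (R : ℝ) ^ 2) := by
        rw [inv_div, div_pow, inv_pow]
        ring
      rw [e1]
      have hKd := hfar s hlos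
      calc 16 * 16 ^ 4 * (16 * (d : ℝ) ^ 3 * (s⁻¹) ^ 4 / (R : ℝ) ^ 2) ≤
            16 * 16 ^ 4 * (16 * (d : ℝ) ^ 3 * (s * c ^ (15 / 8 : ℝ))) := by gcongr
        _ = (256 * 16 ^ 5 * (d : ℝ) ^ 3 * c ^ (15 / 8 : ℝ)) * (s / 16) := by ring
        _ ≤ m * (s / 16) := by gcongr
    · rw [← hLc]
      exact hB2
  · intro p hp1 hp2
    obtain ⟨Q, hQd⟩ : ∃ Q, Q = (4000 * (C + 1) / ε) * ((C + 1) ^ 2 / m) := ⟨_, rfl⟩
    have hQ0 : 0 ≤ Q := by rw [hQd]; positivity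
    obtain ⟨β, hβd⟩ : ∃ β, β = (1 + 2 * (d : ℝ)) * c ^ (39 / 40 : ℝ) := ⟨_, rfl⟩
    have hβ0 : 0 ≤ β := by rw [hβd]; positivity
    have hmain := det_main (K := K) (τ1 := C / (1 + Q * (m / C ^ 2)) + err) (C1 := C + 1)
      (K' := K') (δ := δ) (β := β) hEF hcard (a := ph p) (fun x => (ph_norm p x).le) B hB
      hs0 (by linarith) (by positivity) (by positivity) hK'0 hδ hβ0
      (fun x0 hx0 e' η' h1 h2 h3 => by
        have hη0 : 0 < η' := lt_of_lt_of_le (by positivity) h1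
        refine hprof x0 hx0 e' (by linarith) η' (hloK.trans h1) (by linarith) p hp2 h1 Q hQ0 ?_
        rw [le_div_iff₀ (by positivity)]
        refine le_trans ?_ hp1
        rw [hc1d, hQd]
        have h4 : 0 ≤ (4000 * (C + 1) / ε) * ((C + 1) ^ 2 / m) := by positivity
        calc (4000 * (C + 1) / ε) * ((C + 1) ^ 2 / m) * (η' * (c ^ 2 * V)) ≤
              (4000 * (C + 1) / ε) * ((C + 1) ^ 2 / m) * (2 * (K * s) * (c ^ 2 * Vb ^ 2)) := by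
              gcongr
          _ = _ := by ring)
      (by
        rw [← hLc]
        refine hBc.trans ?_
        apply mul_le_mul_of_nonneg_right _ hLc0
        have h1 : c ^ 3 = c ^ (39 / 40 : ℝ) * c ^ (81 / 40 : ℝ) := by
          rw [← Real.rpow_add hc, ← Real.rpow_natCast]
          congr 1
          norm_num
        have h2 : 0 < c ^ (81 / 40 : ℝ) := by positivity
        have h3 : c ^ (81 / 40 : ℝ) ≤ s / K := hlo.trans hloK
        calc (1 + 2 * (d : ℝ)) * c ^ 3 = β * c ^ (81 / 40 : ℝ) := by rw [h1, hβd]; ring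
          _ ≤ β * (s / K) := by gcongr)
    refine hmain.trans ?_
    have hBde0 := hBde e (by rw [sub_self, abs_zero]; linarith)
    obtain ⟨hl1, hl2, hl3⟩ := hl _ hBde0
    have hCpos : 0 < C := hm.trans_le (hl1.trans (hl2.trans hl3))
    have k1 : C / (1 + Q * (m / C ^ 2)) ≤ ε / 4000 := by
      have h1 : 4000 * (C + 1) / ε ≤ Q * (m / C ^ 2) := by
        rw [hQd]
        have h2 : (C + 1) ^ 2 / m * (m / C ^ 2) = ((C + 1) / C) ^ 2 := by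
          field_simp
        have h3 : 1 ≤ ((C + 1) / C) ^ 2 := by
          apply one_le_pow₀
          rw [le_div_iff₀ hCpos]
          linarith
        rw [mul_assoc, h2]
        have h4 : 0 ≤ 4000 * (C + 1) / ε := by positivity
        exact le_mul_of_one_le_right h4 h3
      rw [div_le_div_iff₀ (by positivity) (by norm_num)]
      have h5 : 4000 * (C + 1) ≤ Q * (m / C ^ 2) * ε := by
        rwa [div_le_iff₀ hε] at h1
      have h6 : ε * (1 + Q * (m / C ^ 2)) = ε + Q * (m / C ^ 2) * ε := by ring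
      rw [h6]
      linarith
    have k2 : K' ≤ 1 / 4 ∧ K' ≤ ε / 16000 := by
      rw [hK'd]
      exact ⟨n2.trans (min_le_left _ _), n2.trans (min_le_right _ _)⟩
    have k3 : (1 + 1 / δ) * K' ≤ 1 / 4 ∧ (1 + 1 / δ) * K' ≤ ε / 16000 := by
      have h1 : (1 + 1 / δ) * K' = ((1 + 1 / δ) * (16 * (d : ℝ) ^ 3)) * c ^ (15 / 8 : ℝ) := by
        rw [hK'd]
        ring
      rw [h1]
      exact ⟨n3.trans (min_le_left _ _), n3.trans (min_le_right _ _)⟩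
    have k4 : β ≤ 1 / 4 ∧ β ≤ ε / 16000 := by
      rw [hβd]
      exact ⟨n6.trans (min_le_left _ _), n6.trans (min_le_right _ _)⟩
    have k5 : δ * (C + 1) ≤ C + 1 := mul_le_of_le_one_left (by linarith) hδ1
    have k6 : 320 * (C + 1 + δ * (C + 1) + (1 + 1 / δ) * K' + β) / K ≤ ε / 2 := by
      rw [div_le_iff₀ hK0]
      have h1 : 640 * (2 * (C + 1) + 2) ≤ ε * K := by
        have h2 : ε * K = ε * 16 + 640 * (2 * (C + 1) + 2) := by
          rw [hKd]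
          field_simp
        rw [h2]
        linarith
      linarith [k3.1, k4.1]
    have k7 : 500 * (C / (1 + Q * (m / C ^ 2)) + err + K' + δ * (C + 1) + (1 + 1 / δ) * K' + β) +
        320 * (C + 1 + δ * (C + 1) + (1 + 1 / δ) * K' + β) / K ≤ ε := by
      linarith [k2.2, k3.2, k4.2]
    exact mul_le_mul_of_nonneg_right (mul_le_mul_of_nonneg_right k7 hs0.le) (Nat.cast_nonneg _)

end Pool.Agent.X133.QE
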