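import Mathlib

/-! Trigonometric polynomials on the torus, and a Chebyshev bound. -/

set_option autoImplicit false

open scoped BigOperators Topology
open MeasureTheory Filter Set

namespace Pool.Agent.X133.QE

open UnitAddTorus

variable {d : ℕ}

instance instProbT : IsProbabilityMeasure (volume : Measure (UnitAddTorus (Fin d))) := by
  constructor
  change (volume : Measure (Fin d → UnitAddCircle)) univ = 1
  rw [volume_pi, Measure.pi_univ]
  simp

theorem int_mFourier (k : Fin d → ℤ) (hk : k ≠ 0) :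
    ∫ t : UnitAddTorus (Fin d), mFourier k t = 0 := by
  obtain ⟨i, hi⟩ := Function.ne_iff.1 hk
  simp only [Pi.zero_apply] at hi
  obtain ⟨a, ha⟩ : ∃ a : UnitAddTorus (Fin d), a = Pi.single (M := fun _ => UnitAddCircle) i
    (((1 / (2 * (k i : ℝ)) : ℝ)) : UnitAddCircle) := ⟨_, rfl⟩
  have h1 : mFourier k a = -1 := by
    unfold mFourier
    simp only [ContinuousMap.coe_mk]
    rw [Finset.prod_eq_single i]
    · rw [ha, Pi.single_eq_same, fourier_coe_apply]
      have h2 : (2 * (Real.pi : ℂ) * Complex.I * (k i : ℂ) * ((1 / (2 * (k i : ℝ)) : ℝ) : ℂ) / ((1 : ℝ) : ℂ)) =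
          (Real.pi : ℂ) * Complex.I := by
        have h3 : ((k i : ℤ) : ℂ) ≠ 0 := by exact_mod_cast hi
        push_cast
        field_simp
      rw [h2, Complex.exp_pi_mul_I]
    · intro j _ hj
      rw [ha, Pi.single_eq_of_ne hj]
      simp
    · intro h
      exact absurd (Finset.mem_univ i) h
  have h2 : ∫ t : UnitAddTorus (Fin d), mFourier k (a + t) = ∫ t : UnitAddTorus (Fin d), mFourier k t :=
    integral_add_left_eq_self (μ := (volume : Measure (UnitAddTorus (Fin d))))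
      (fun t => mFourier k t) a
  have h3 : ∀ t : UnitAddTorus (Fin d), mFourier k (a + t) = -1 * mFourier k t := by
    intro t
    rw [← h1]
    unfold mFourier
    simp only [ContinuousMap.coe_mk, Pi.add_apply]
    rw [← Finset.prod_mul_distrib]
    refine Finset.prod_congr rfl fun j _ => ?_
    rw [fourier_apply, fourier_apply, fourier_apply, smul_add, AddCircle.toCircle_add]
    rfl
  have h4 : ∫ t : UnitAddTorus (Fin d), mFourier k (a + t) =
      -1 * ∫ t : UnitAddTorus (Fin d), mFourier k t := by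
    rw [← integral_const_mul]
    exact integral_congr_ae (Eventually.of_forall h3)
  rw [h4] at h2
  have h5 : (2 : ℂ) * ∫ t : UnitAddTorus (Fin d), mFourier k t = 0 := by
    have h6 := sub_eq_zero.2 h2
    have h7 : (-1 * ∫ t : UnitAddTorus (Fin d), mFourier k t) -
        ∫ t : UnitAddTorus (Fin d), mFourier k t =
        -((2 : ℂ) * ∫ t : UnitAddTorus (Fin d), mFourier k t) := by ring
    rw [h7, neg_eq_zero] at h6
    exact h6
  exact (mul_eq_zero.1 h5).resolve_left two_ne_zero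

/-- the approximation by a trigonometric polynomial -/
theorem approx (f : C(UnitAddTorus (Fin d), ℂ)) (ε : ℝ) (hε : 0 < ε) :
    ∃ (F : Finset (Fin d → ℤ)) (c : (Fin d → ℤ) → ℂ), (0 : Fin d → ℤ) ∈ F ∧
      (∀ t, ‖f t - ∑ k ∈ F, c k * mFourier k t‖ ≤ ε) ∧
      ‖(∫ t : UnitAddTorus (Fin d), f t) - c 0‖ ≤ ε := by
  have h1 : f ∈ (Submodule.span ℂ (range (mFourier (d := Fin d)))).topologicalClosure := by
    rw [span_mFourier_closure_eq_top]
    trivial
  rw [← SetLike.mem_coe, Submodule.topologicalClosure_coe, Metric.mem_closure_iff] at h1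
  obtain ⟨P, hP, hfP⟩ := h1 ε hε
  rw [SetLike.mem_coe, Finsupp.mem_span_range_iff_exists_finsupp] at hP
  obtain ⟨c, hc⟩ := hP
  have hval : ∀ t, P t = ∑ k ∈ insert 0 c.support, c k * mFourier k t := by
    intro t
    rw [← hc, Finsupp.sum]
    have h2 : (∑ a ∈ c.support, c a • mFourier a) t = ∑ a ∈ c.support, c a * mFourier a t := by
      rw [ContinuousMap.coe_sum, Finset.sum_apply]
      rfl
    rw [h2]
    apply Finset.sum_subset (Finset.subset_insert _ _)
    intro k _ hk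
    rw [Finsupp.notMem_support_iff.1 hk, zero_mul]
  have hle : ∀ t, ‖f t - P t‖ ≤ ε := by
    intro t
    have h3 := (f - P).norm_coe_le_norm t
    rw [← dist_eq_norm] at h3
    exact h3.trans hfP.le
  refine ⟨insert 0 c.support, c, Finset.mem_insert_self _ _, fun t => ?_, ?_⟩
  · rw [← hval]
    exact hle t
  · have hintP : ∫ t : UnitAddTorus (Fin d), P t = c 0 := by
      rw [integral_congr_ae (Eventually.of_forall hval)]
      rw [integral_finsetSum]
      · rw [Finset.sum_eq_single 0]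
        · rw [integral_const_mul, mFourier_zero]
          simp
        · intro k _ hk
          rw [integral_const_mul, int_mFourier k hk, mul_zero]
        · intro h
          exact absurd (Finset.mem_insert_self _ _) h
      · intro k _
        apply Integrable.const_mul
        exact (mFourier k).continuous.integrable_of_hasCompactSupport
          (HasCompactSupport.of_compactSpace _)
    rw [← hintP]
    have hi1 : Integrable (fun t : UnitAddTorus (Fin d) => f t) :=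
      f.continuous.integrable_of_hasCompactSupport (HasCompactSupport.of_compactSpace _)
    have hi2 : Integrable (fun t : UnitAddTorus (Fin d) => P t) :=
      P.continuous.integrable_of_hasCompactSupport (HasCompactSupport.of_compactSpace _)
    rw [← integral_sub hi1 hi2]
    have h4 := norm_integral_le_of_norm_le_const
      (μ := (volume : Measure (UnitAddTorus (Fin d)))) (f := fun t => f t - P t) (C := ε)
      (Eventually.of_forall hle)
    rw [probReal_univ, mul_one] at h4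
    exact h4

/-- **the Chebyshev bound** -/
theorem cheb {X K ι : Type*} [Fintype ι] (Λ : Finset X) (w : ι → X → ℝ) (hw : ∀ n x, 0 ≤ w n x)
    (hone : ∀ n, ∑ x ∈ Λ, w n x = 1) (win : ι → Prop) (F : Finset K) (k0 : K) (hk0 : k0 ∈ F)
    (c : K → ℂ) (g : K → X → ℂ) (hg0 : ∀ x, g k0 x = 1) (f : X → ℂ) (M : ℂ) (ε B1 : ℝ)
    (hε : 0 < ε) (hf : ∀ x, ‖f x - ∑ k ∈ F, c k * g k x‖ ≤ ε / 4) (hM : ‖M - c k0‖ ≤ ε / 4)
    (hB : ∀ k ∈ F, k ≠ k0 → ∀ S : Finset ι, (∀ n ∈ S, win n) →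
      ∑ n ∈ S, ‖∑ x ∈ Λ, g k x * (w n x : ℂ)‖ ^ 2 ≤ B1) (hB0 : 0 ≤ B1) :
    (Nat.card {n : ι // win n ∧ ε < ‖∑ x ∈ Λ, f x * (w n x : ℂ) - M‖} : ℝ) ≤
      4 / ε ^ 2 * ((∑ k ∈ F, ‖c k‖ ^ 2) * (F.card * B1)) := by
  classical
  obtain ⟨S, hS⟩ : ∃ S : Finset ι, S = Finset.univ.filter fun n =>
    win n ∧ ε < ‖∑ x ∈ Λ, f x * (w n x : ℂ) - M‖ := ⟨_, rfl⟩
  have hcard : (Nat.card {n : ι // win n ∧ ε < ‖∑ x ∈ Λ, f x * (w n x : ℂ) - M‖} : ℝ) = S.card := by
    rw [Nat.card_eq_fintype_card, Fintype.card_subtype, hS]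
  rw [hcard]
  have hpt : ∀ n ∈ S, ε ^ 2 / 4 ≤ (∑ k ∈ F, ‖c k‖ ^ 2) *
      ∑ k ∈ F.erase k0, ‖∑ x ∈ Λ, g k x * (w n x : ℂ)‖ ^ 2 := by
    intro n hn
    rw [hS, Finset.mem_filter] at hn
    have h1 : ∑ x ∈ Λ, f x * (w n x : ℂ) - M =
        ∑ x ∈ Λ, (f x - ∑ k ∈ F, c k * g k x) * (w n x : ℂ) - (M - c k0) +
        ∑ k ∈ F.erase k0, c k * ∑ x ∈ Λ, g k x * (w n x : ℂ) := by
      have h2 : ∑ x ∈ Λ, (∑ k ∈ F, c k * g k x) * (w n x : ℂ) =
          ∑ k ∈ F, c k * ∑ x ∈ Λ, g k x * (w n x : ℂ) := by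
        have h3 : ∀ x ∈ Λ, (∑ k ∈ F, c k * g k x) * (w n x : ℂ) =
            ∑ k ∈ F, c k * (g k x * (w n x : ℂ)) := by
          intro x _
          rw [Finset.sum_mul]
          exact Finset.sum_congr rfl fun k _ => by ring
        rw [Finset.sum_congr rfl h3, Finset.sum_comm]
        refine Finset.sum_congr rfl fun k _ => ?_
        rw [Finset.mul_sum]
      have h4 : ∑ k ∈ F, c k * ∑ x ∈ Λ, g k x * (w n x : ℂ) = c k0 +
          ∑ k ∈ F.erase k0, c k * ∑ x ∈ Λ, g k x * (w n x : ℂ) := by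
        rw [← Finset.add_sum_erase F _ hk0]
        congr 1
        have h5 : ∑ x ∈ Λ, g k0 x * (w n x : ℂ) = 1 := by
          have h6 : ∀ x ∈ Λ, g k0 x * (w n x : ℂ) = (w n x : ℂ) := by
            intro x _
            rw [hg0, one_mul]
          rw [Finset.sum_congr rfl h6, ← Complex.ofReal_sum, hone n, Complex.ofReal_one]
        rw [h5, mul_one]
      have h7 : ∑ x ∈ Λ, (f x - ∑ k ∈ F, c k * g k x) * (w n x : ℂ) =
          ∑ x ∈ Λ, f x * (w n x : ℂ) - ∑ x ∈ Λ, (∑ k ∈ F, c k * g k x) * (w n x : ℂ) := by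
        rw [← Finset.sum_sub_distrib]
        exact Finset.sum_congr rfl fun x _ => by ring
      rw [h7, h2, h4]
      ring
    have h8 : ‖∑ x ∈ Λ, (f x - ∑ k ∈ F, c k * g k x) * (w n x : ℂ)‖ ≤ ε / 4 := by
      refine (norm_sum_le _ _).trans ?_
      calc ∑ x ∈ Λ, ‖(f x - ∑ k ∈ F, c k * g k x) * (w n x : ℂ)‖ ≤
            ∑ x ∈ Λ, ε / 4 * w n x := by
            refine Finset.sum_le_sum fun x _ => ?_
            rw [norm_mul, Complex.norm_real, Real.norm_of_nonneg (hw n x)]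
            exact mul_le_mul_of_nonneg_right (hf x) (hw n x)
        _ = ε / 4 := by rw [← Finset.mul_sum, hone n, mul_one]
    obtain ⟨Y, hY⟩ : ∃ Y, Y = ‖∑ k ∈ F.erase k0, c k * ∑ x ∈ Λ, g k x * (w n x : ℂ)‖ := ⟨_, rfl⟩
    have h9 : ε / 2 ≤ Y := by
      have h10 := hn.2.2
      rw [h1] at h10
      have h11 := norm_add_le (∑ x ∈ Λ, (f x - ∑ k ∈ F, c k * g k x) * (w n x : ℂ) - (M - c k0))
        (∑ k ∈ F.erase k0, c k * ∑ x ∈ Λ, g k x * (w n x : ℂ))
      have h12 := norm_sub_le (∑ x ∈ Λ, (f x - ∑ k ∈ F, c k * g k x) * (w n x : ℂ)) (M - c k0)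
      rw [hY]
      linarith
    have h13 : Y ≤ ∑ k ∈ F.erase k0, ‖c k‖ * ‖∑ x ∈ Λ, g k x * (w n x : ℂ)‖ := by
      rw [hY]
      refine (norm_sum_le _ _).trans (le_of_eq ?_)
      exact Finset.sum_congr rfl fun k _ => norm_mul _ _
    have h14 := Finset.sum_mul_sq_le_sq_mul_sq (F.erase k0) (fun k => ‖c k‖)
      (fun k => ‖∑ x ∈ Λ, g k x * (w n x : ℂ)‖)
    have h15 : ∑ k ∈ F.erase k0, ‖c k‖ ^ 2 ≤ ∑ k ∈ F, ‖c k‖ ^ 2 :=
      Finset.sum_le_sum_of_subset_of_nonneg (Finset.erase_subset _ _)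
        fun k _ _ => sq_nonneg _
    have h16 : (ε / 2) ^ 2 ≤ (∑ k ∈ F.erase k0, ‖c k‖ * ‖∑ x ∈ Λ, g k x * (w n x : ℂ)‖) ^ 2 :=
      pow_le_pow_left₀ (by positivity) (h9.trans h13) 2
    have h17 : ε ^ 2 / 4 = (ε / 2) ^ 2 := by ring
    rw [h17]
    refine h16.trans (h14.trans ?_)
    apply mul_le_mul_of_nonneg_right h15
    exact Finset.sum_nonneg fun k _ => sq_nonneg _
  have hwin : ∀ n ∈ S, win n := by
    intro n hn
    rw [hS, Finset.mem_filter] at hn
    exact hn.2.1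
  have hsum : (S.card : ℝ) * (ε ^ 2 / 4) ≤ (∑ k ∈ F, ‖c k‖ ^ 2) * (F.card * B1) := by
    have h1 := Finset.sum_le_sum hpt
    rw [Finset.sum_const, nsmul_eq_mul, ← Finset.mul_sum, Finset.sum_comm] at h1
    refine h1.trans ?_
    apply mul_le_mul_of_nonneg_left _ (Finset.sum_nonneg fun k _ => sq_nonneg _)
    have h2 : ∑ k ∈ F.erase k0, ∑ n ∈ S, ‖∑ x ∈ Λ, g k x * (w n x : ℂ)‖ ^ 2 ≤
        ∑ k ∈ F.erase k0, B1 := by
      refine Finset.sum_le_sum fun k hk => ?_
      rw [Finset.mem_erase] at hk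
      exact hB k hk.2 hk.1 S hwin
    refine h2.trans ?_
    rw [Finset.sum_const, nsmul_eq_mul]
    apply mul_le_mul_of_nonneg_right _ hB0
    exact_mod_cast Finset.card_le_card (Finset.erase_subset _ _)
  have h3 : (S.card : ℝ) = 4 / ε ^ 2 * ((S.card : ℝ) * (ε ^ 2 / 4)) := by
    field_simp
  rw [h3]
  exact mul_le_mul_of_nonneg_left hsum (by positivity)

end Pool.Agent.X133.QE
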