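import Pool.Agent.X133.QE.Abs
import Pool.Agent.X133.QE.Tor

/-! Equidistribution modulo a length, from any profile of the resolvent. -/

set_option autoImplicit false
set_option linter.unusedSectionVars false

open scoped BigOperators Topology
open MeasureTheory Filter Set

namespace Pool.Agent.X133.QE

open Pool.Agent.W788.BK
open Pool.Agent.H4R2.LO (Zd)
open Pool.Agent.W788.BK.Num
open Pool.Agent.TH794.QD
open Pool.Agent.TH794.QE
open Pool.Agent.TH794.HK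
open Pool.Agent.X133.LL
open UnitAddTorus

variable {d : ℕ}

/-- the point `x / ℓ` of the torus -/
noncomputable def pt (ℓ : ℝ) (x : Zd d) : UnitAddTorus (Fin d) :=
  fun i => (((x i : ℝ) / ℓ : ℝ) : UnitAddCircle)

theorem mF_pt (ℓ : ℝ) (k : Fin d → ℤ) (x : Zd d) :
    mFourier k (pt ℓ x) = ph (fun i => 2 * Real.pi * k i / ℓ) x := by
  unfold mFourier ph pt
  simp only [ContinuousMap.coe_mk]
  have h1 : ∀ i, fourier (k i) ((((x i : ℝ) / ℓ : ℝ) : UnitAddCircle)) =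
      Complex.exp (Complex.I * ((2 * Real.pi * k i / ℓ * (x i : ℝ) : ℝ) : ℂ)) := by
    intro i
    rw [fourier_coe_apply]
    congr 1
    push_cast
    rw [div_one]
    ring
  rw [Finset.prod_congr rfl fun i _ => h1 i, ← Complex.exp_sum, ← Finset.mul_sum]
  congr 2
  push_cast
  rfl

/-- the diagonal matrix elements -/
theorem Am_diag {ι : Type} [Fintype ι] (Λ : Finset (Zd d)) (u : ι → Zd d → ℂ) (a : Zd d → ℂ)
    (n : ι) : Am Λ u a n n = ∑ x ∈ Λ, a x * ((‖u n x‖ ^ 2 : ℝ) : ℂ) := by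
  unfold Am
  refine Finset.sum_congr rfl fun x _ => ?_
  have h1 : ((‖u n x‖ ^ 2 : ℝ) : ℂ) = u n x * (starRingEnd ℂ) (u n x) := by
    rw [Complex.mul_conj, Complex.normSq_eq_norm_sq]
  rw [h1]
  ring

/-- **from the profile of the resolvent to quantum ergodicity in all boxes** -/
theorem qe_full (d : ℕ) (hd1 : 1 ≤ d) (m C ε v Vb : ℝ) (hm : 0 < m) (hC0 : 0 ≤ C) (hε : 0 < ε)
    (hv : 0 < v) (hVb0 : 0 < Vb) (f : C(UnitAddTorus (Fin d), ℂ)) :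
    ∃ K c1 : ℝ, 16 ≤ K ∧ 0 < c1 ∧ ∀ A : ℝ, 0 < A → ∃ (N : ℕ) (err0 lam0 : ℝ),
    1 ≤ N ∧ 0 < err0 ∧ 0 < lam0 ∧
    ∀ c : ℝ, 0 < c → c ≤ lam0 → ∀ (μ : Measure ℝ) [IsProbabilityMeasure μ], ∀ Mn V : ℝ,
      v ≤ V → V ≤ Vb ^ 2 → ∀ (Bd : ℝ → Prop) (γ0 γ1 : ℝ → ℂ),
      (∀ E, Bd E → m ≤ (γ1 E).im ∧ (γ1 E).im ≤ (γ0 E).im ∧ (γ0 E).im ≤ C) →
      ∀ lo hi err : ℝ, c ^ (81 / 40 : ℝ) ≤ lo → hi ≤ 1 → 0 ≤ err → err ≤ err0 →
      ∀ G1 : Set (Zd d → ℝ), MeasurableSet G1 →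
      (∀ ω ∈ G1, ∀ e : ℝ, Bd (2 * d + c * Mn - e) → ∀ η : ℝ, lo ≤ η → η ≤ hi →
        (∃ u, Rs d (fun x => 2 * d + c * ω x) 0 e η u) ∧
        ∀ u, Rs d (fun x => 2 * d + c * ω x) 0 e η u →
        ∀ p : Fin d → ℝ, ∑ i, p i ^ 2 ≤ (N : ℝ) ^ 2 * (η * (c ^ 2 * V)) →
          ‖((η : ℝ) : ℂ) * ∑' y, ph p (y - 0) * ((‖u y‖ ^ 2 : ℝ) : ℂ) -
            ((Tg γ0 γ1 η (c ^ 2 * V) (2 * d + c * Mn - e) p : ℝ) : ℂ)‖ ≤ err) →
      ∃ G : Set (Zd d → ℝ), MeasurableSet G ∧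
        1 - 10 ^ d * (Measure.infinitePi fun _ : Zd d => μ).real G1ᶜ / c ^ 3 ≤
          (Measure.infinitePi fun _ : Zd d => μ).real G ∧
        ∀ ω ∈ G, ∀ L : ℕ, 1 / c ^ 9 ≤ (L : ℝ) → ∀ e : ℝ,
          (∀ e' : ℝ, |e' - e| ≤ hi → Bd (2 * d + c * Mn - e')) →
          ∀ s : ℝ, K * lo ≤ s → 2 * (K * s) ≤ hi →
          ∀ (ι : Type) [Fintype ι] (u : ι → Zd d → ℂ) (En : ι → ℝ),
            EF (Bx 0 L) (fun x => 2 * d + c * ω x) u En →
            Fintype.card ι = (Bx (0 : Zd d) L).card →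
            m / 512 * s * (Bx (0 : Zd d) L).card ≤ (Nat.card {n : ι // |En n - e| ≤ s} : ℝ) ∧
            (∀ p : Fin d → ℝ, c1 * (c ^ 2 * s) ≤ ∑ i, p i ^ 2 →
              ∑ i, p i ^ 2 ≤ A * (c ^ 2 * s) →
              ∑ m, ∑ n, (if |En m - e| ≤ s ∧ |En n - En m| ≤ s / K then
                ‖Am (Bx 0 L) u (ph p) m n‖ ^ 2 else 0) ≤ ε * s * (Bx (0 : Zd d) L).card) ∧
            (∀ ℓ : ℝ, 0 < ℓ → c1 * (c ^ 2 * s) ≤ 1 / ℓ ^ 2 → 1 / ℓ ^ 2 ≤ A * (c ^ 2 * s) →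
              (Nat.card {n : ι // |En n - e| ≤ s ∧ ε < ‖∑ x ∈ Bx (0 : Zd d) L,
                f (pt ℓ x) * ((‖u n x‖ ^ 2 : ℝ) : ℂ) -
                  ∫ t : UnitAddTorus (Fin d), f t‖} : ℝ) ≤
                ε * s * (Bx (0 : Zd d) L).card) := by
  obtain ⟨F, cc, hF0, hFf, hFM⟩ := approx f (ε / 4) (by positivity)
  obtain ⟨Sc, hSc⟩ : ∃ Sc, Sc = ∑ k ∈ F, ‖cc k‖ ^ 2 := ⟨_, rfl⟩
  have hSc0 : 0 ≤ Sc := by rw [hSc]; exact Finset.sum_nonneg fun k _ => sq_nonneg _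
  obtain ⟨M2, hM2⟩ : ∃ M2 : ℝ, M2 = ∑ k ∈ F, ∑ i, (k i : ℝ) ^ 2 := ⟨_, rfl⟩
  have hM20 : 0 ≤ M2 := by
    rw [hM2]
    exact Finset.sum_nonneg fun k _ => Finset.sum_nonneg fun i _ => sq_nonneg _
  obtain ⟨ε', hε'⟩ : ∃ ε', ε' = min ε (ε ^ 3 / (4 * Sc * F.card + 1)) := ⟨_, rfl⟩
  have hF0' : (0 : ℝ) ≤ F.card := Nat.cast_nonneg _
  have hden : 0 < 4 * Sc * F.card + 1 := by positivity
  have hε'0 : 0 < ε' := by rw [hε']; exact lt_min hε (by positivity)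
  have hε'1 : ε' ≤ ε := by rw [hε']; exact min_le_left _ _
  have hε'2 : 4 / ε ^ 2 * (Sc * (F.card * ε')) ≤ ε := by
    have h1 : ε' ≤ ε ^ 3 / (4 * Sc * F.card + 1) := by rw [hε']; exact min_le_right _ _
    rw [le_div_iff₀ hden] at h1
    have h2 : 4 / ε ^ 2 * (Sc * (F.card * ε')) = (4 * Sc * F.card * ε') / ε ^ 2 := by
      field_simp
    rw [h2, div_le_iff₀ (by positivity)]
    have h3 : ε' * (4 * Sc * F.card + 1) = 4 * Sc * F.card * ε' + ε' := by ring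
    have h4 : ε * ε ^ 2 = ε ^ 3 := by ring
    rw [h4]
    linarith
  obtain ⟨K, c1, hK, hc1, habs⟩ := qe_abs d hd1 m C ε' v Vb hm hC0 hε'0 hv hVb0
  refine ⟨K, c1, hK, hc1, fun A hA => ?_⟩
  obtain ⟨A', hA'⟩ : ∃ A', A' = (1 + 4 * Real.pi ^ 2 * M2) * A := ⟨_, rfl⟩
  have hAA : A ≤ A' := by
    rw [hA']
    apply le_mul_of_one_le_left hA.le
    have : 0 ≤ 4 * Real.pi ^ 2 * M2 := by positivity
    linarith
  obtain ⟨N, err0, lam0, hN, herr0, hlam0, h1⟩ := habs A' (hA.trans_le hAA)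
  refine ⟨N, err0, lam0, hN, herr0, hlam0, ?_⟩
  intro c hc hcl μ hμ Mn V hVv hVb Bd γ0 γ1 hl lo hi err hlo hhi herr0' herr G1 hG1m hG1
  obtain ⟨G, hGm, hGP, hG⟩ := h1 c hc hcl μ Mn V hVv hVb Bd γ0 γ1 hl lo hi err hlo hhi herr0' herr
    G1 hG1m hG1
  refine ⟨G, hGm, hGP, ?_⟩
  intro ω hω L hL e he s hs1 hs2 ι _ u En hEF hcard
  obtain ⟨h2, h3⟩ := hG ω hω L hL e he s hs1 hs2 ι u En hEF hcard
  have hlo0 : 0 < lo := lt_of_lt_of_le (by positivity) hlo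
  have hs0 : 0 < s := lt_of_lt_of_le (by positivity) hs1
  have hLc : (0 : ℝ) ≤ (Bx (0 : Zd d) L).card := Nat.cast_nonneg _
  refine ⟨h2, fun p hp1 hp2 => ?_, fun ℓ hℓ hℓ1 hℓ2 => ?_⟩
  · refine (h3 p hp1 (hp2.trans (by gcongr))).trans ?_
    gcongr
  · have hcheb := cheb (Bx (0 : Zd d) L) (fun n x => ‖u n x‖ ^ 2) (fun n x => sq_nonneg _)
      (fun n => hEF.one n) (fun n => |En n - e| ≤ s) F 0 hF0 cc
      (fun k x => ph (fun i => 2 * Real.pi * k i / ℓ) x) (fun x => by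
        unfold ph
        simp) (fun x => f (pt ℓ x)) (∫ t : UnitAddTorus (Fin d), f t) ε
      (ε' * s * (Bx (0 : Zd d) L).card) hε (fun x => by
        have h4 := hFf (pt ℓ x)
        rw [Finset.sum_congr rfl fun k _ => by rw [mF_pt ℓ k x]] at h4
        exact h4) hFM (fun k hk hk0 S hS => by
        have hksum : ∑ i, (2 * Real.pi * (k i : ℝ) / ℓ) ^ 2 =
            4 * Real.pi ^ 2 * (∑ i, (k i : ℝ) ^ 2) * (1 / ℓ ^ 2) := by
          rw [Finset.mul_sum, Finset.sum_mul]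
          refine Finset.sum_congr rfl fun i _ => ?_
          ring
        have hk1 : (1 : ℝ) ≤ ∑ i, (k i : ℝ) ^ 2 := by
          obtain ⟨i, hi⟩ := Function.ne_iff.1 hk0
          simp only [Pi.zero_apply] at hi
          have h5 : (1 : ℝ) ≤ (k i : ℝ) ^ 2 := by
            have h6 : (1 : ℤ) ≤ (k i) ^ 2 := by
              have : 0 < (k i) ^ 2 := by positivity
              omega
            exact_mod_cast h6
          refine h5.trans ?_
          exact Finset.single_le_sum (f := fun i => (k i : ℝ) ^ 2) (fun i _ => sq_nonneg _)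
            (Finset.mem_univ i)
        have hk2 : ∑ i, (k i : ℝ) ^ 2 ≤ M2 := by
          rw [hM2]
          exact Finset.single_le_sum (f := fun k : Fin d → ℤ => ∑ i, (k i : ℝ) ^ 2)
            (fun k _ => Finset.sum_nonneg fun i _ => sq_nonneg _) hk
        have hpi : (1 : ℝ) ≤ 4 * Real.pi ^ 2 := by
          have := Real.pi_gt_three
          nlinarith
        have hpos : 0 ≤ 1 / ℓ ^ 2 := by positivity
        have h7 := h3 (fun i => 2 * Real.pi * k i / ℓ) (by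
          rw [hksum]
          refine hℓ1.trans ?_
          apply le_mul_of_one_le_left hpos
          calc (1 : ℝ) ≤ 1 * 1 := by norm_num
            _ ≤ 4 * Real.pi ^ 2 * ∑ i, (k i : ℝ) ^ 2 := by gcongr) (by
          rw [hksum, hA']
          have h8 : 4 * Real.pi ^ 2 * (∑ i, (k i : ℝ) ^ 2) ≤ 1 + 4 * Real.pi ^ 2 * M2 := by
            have h9 : 4 * Real.pi ^ 2 * (∑ i, (k i : ℝ) ^ 2) ≤ 4 * Real.pi ^ 2 * M2 := by gcongr
            linarith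
          calc 4 * Real.pi ^ 2 * (∑ i, (k i : ℝ) ^ 2) * (1 / ℓ ^ 2) ≤
                (1 + 4 * Real.pi ^ 2 * M2) * (A * (c ^ 2 * s)) := by gcongr
            _ = _ := by ring)
        refine le_trans ?_ h7
        have h10 : ∀ n ∈ S, ‖∑ x ∈ Bx (0 : Zd d) L, ph (fun i => 2 * Real.pi * (k i : ℝ) / ℓ) x *
            ((‖u n x‖ ^ 2 : ℝ) : ℂ)‖ ^ 2 ≤ ∑ n', (if |En n - e| ≤ s ∧ |En n' - En n| ≤ s / K then
              ‖Am (Bx 0 L) u (ph fun i => 2 * Real.pi * (k i : ℝ) / ℓ) n n'‖ ^ 2 else 0) := by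
          intro n hn
          have h11 := Finset.single_le_sum (f := fun n' =>
            (if |En n - e| ≤ s ∧ |En n' - En n| ≤ s / K then
              ‖Am (Bx 0 L) u (ph fun i => 2 * Real.pi * (k i : ℝ) / ℓ) n n'‖ ^ 2 else 0))
            (fun n' _ => by split_ifs <;> positivity) (Finset.mem_univ n)
          refine le_trans (le_of_eq ?_) h11
          rw [if_pos ⟨hS n hn, by
            rw [sub_self, abs_zero]
            positivity⟩, Am_diag]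
        refine (Finset.sum_le_sum h10).trans ?_
        apply Finset.sum_le_sum_of_subset_of_nonneg (Finset.subset_univ S)
        intro n _ _
        exact Finset.sum_nonneg fun n' _ => by split_ifs <;> positivity) (by positivity)
    refine hcheb.trans ?_
    rw [← hSc]
    calc 4 / ε ^ 2 * (Sc * (F.card * (ε' * s * (Bx (0 : Zd d) L).card))) =
          (4 / ε ^ 2 * (Sc * (F.card * ε'))) * (s * (Bx (0 : Zd d) L).card) := by ring
      _ ≤ ε * (s * (Bx (0 : Zd d) L).card) := by gcongr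
      _ = _ := by ring

end Pool.Agent.X133.QE
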