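import Mathlib

/-! An average over circles which separates the imaginary part of a resolvent. -/

set_option autoImplicit false

open scoped BigOperators Topology
open MeasureTheory Filter Set

namespace Pool.Agent.X133.QE

/-- the point of the circle -/
noncomputable def Zp (e S ρ φ : ℝ) : ℂ := ((e : ℂ) + (S : ℂ) * Complex.I) +
  Complex.I * ((ρ : ℂ) * Complex.exp ((φ : ℂ) * Complex.I))

theorem Zp_re (e S ρ φ : ℝ) : (Zp e S ρ φ).re = e - ρ * Real.sin φ := by
  unfold Zp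
  rw [Complex.exp_mul_I]
  simp [Complex.cos_ofReal_re, Complex.sin_ofReal_re]
  ring

theorem Zp_im (e S ρ φ : ℝ) : (Zp e S ρ φ).im = S + ρ * Real.cos φ := by
  unfold Zp
  rw [Complex.exp_mul_I]
  simp [Complex.cos_ofReal_re, Complex.sin_ofReal_re]

theorem Zp_cont (e S ρ : ℝ) : Continuous (Zp e S ρ) := by
  unfold Zp
  fun_prop

/-- the Poisson kernel -/
noncomputable def PK (E : ℝ) (z : ℂ) : ℝ := z.im / ((E - z.re) ^ 2 + z.im ^ 2)

theorem sub_ne {E : ℝ} {z : ℂ} (hz : 0 < z.im) : (E : ℂ) - z ≠ 0 := by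
  intro h
  have h1 := congrArg Complex.im h
  simp at h1
  linarith

theorem PK_eq (E : ℝ) (z : ℂ) : PK E z = (1 / ((E : ℂ) - z)).im := by
  rw [one_div, Complex.inv_im, Complex.normSq_apply]
  unfold PK
  simp only [Complex.sub_re, Complex.ofReal_re, Complex.sub_im, Complex.ofReal_im]
  rw [zero_sub, neg_neg]
  congr 1
  ring

theorem PK_nonneg {E : ℝ} {z : ℂ} (hz : 0 < z.im) : 0 ≤ PK E z := by
  unfold PK
  positivity

theorem alg (a b : ℂ) : 2 * (a.im * b.im) = (a * (starRingEnd ℂ) b).re - (a * b).re := by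
  simp only [Complex.mul_re, Complex.conj_re, Complex.conj_im]
  ring

theorem PK_prod (E E' : ℝ) (z : ℂ) :
    2 * (PK E z * PK E' z) = (1 / (((E : ℂ) - z) * (starRingEnd ℂ) ((E' : ℂ) - z))).re -
      (1 / (((E : ℂ) - z) * ((E' : ℂ) - z))).re := by
  rw [PK_eq, PK_eq, alg, ← one_div_mul_one_div, ← one_div_mul_one_div, map_div₀, map_one]

/-- **the mean value property** -/
theorem mean (E E' e S ρ : ℝ) (hρ : 0 ≤ ρ) (hS : ρ < S) :
    ∫ φ in (0 : ℝ)..2 * Real.pi, 1 / (((E : ℂ) - Zp e S ρ φ) * ((E' : ℂ) - Zp e S ρ φ)) =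
      ((2 * Real.pi : ℝ) : ℂ) * (1 / (((E : ℂ) - ((e : ℂ) + (S : ℂ) * Complex.I)) *
        ((E' : ℂ) - ((e : ℂ) + (S : ℂ) * Complex.I)))) := by
  obtain ⟨f, hf⟩ : ∃ f : ℂ → ℂ, f = fun w => 1 / (((E : ℂ) -
    (((e : ℂ) + (S : ℂ) * Complex.I) + Complex.I * w)) *
      ((E' : ℂ) - (((e : ℂ) + (S : ℂ) * Complex.I) + Complex.I * w))) := ⟨_, rfl⟩
  have him : ∀ w : ℂ, ‖w‖ < S → 0 < (((e : ℂ) + (S : ℂ) * Complex.I) + Complex.I * w).im := by
    intro w hw
    have h1 : (((e : ℂ) + (S : ℂ) * Complex.I) + Complex.I * w).im = S + w.re := by simp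
    rw [h1]
    have h2 := Complex.abs_re_le_norm w
    have h3 := neg_abs_le w.re
    linarith
  have hd : DifferentiableOn ℂ f (Metric.ball 0 S) := by
    intro w hw
    rw [mem_ball_zero_iff] at hw
    apply DifferentiableAt.differentiableWithinAt
    rw [hf]
    have h1 := sub_ne (E := E) (him w hw)
    have h2 := sub_ne (E := E') (him w hw)
    apply DifferentiableAt.div (by fun_prop) (by fun_prop)
    exact mul_ne_zero h1 h2
  have hdc : DiffContOnCl ℂ f (Metric.ball 0 |ρ|) := by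
    apply DifferentiableOn.diffContOnCl
    apply hd.mono
    rw [abs_of_nonneg hρ]
    refine (Metric.closure_ball_subset_closedBall).trans ?_
    exact Metric.closedBall_subset_ball hS
  have h1 := hdc.circleAverage
  rw [Real.circleAverage_def] at h1
  have h2 : f 0 = 1 / (((E : ℂ) - ((e : ℂ) + (S : ℂ) * Complex.I)) *
        ((E' : ℂ) - ((e : ℂ) + (S : ℂ) * Complex.I))) := by
    rw [hf]
    simp only [mul_zero, add_zero]
  have h3 : ∀ φ : ℝ, f (circleMap 0 ρ φ) =
      1 / (((E : ℂ) - Zp e S ρ φ) * ((E' : ℂ) - Zp e S ρ φ)) := by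
    intro φ
    rw [hf]
    unfold Zp
    rw [circleMap_zero]
  rw [← h2, ← h1]
  have h4 : (∫ θ in (0 : ℝ)..2 * Real.pi, f (circleMap 0 ρ θ)) =
      ∫ φ in (0 : ℝ)..2 * Real.pi, 1 / (((E : ℂ) - Zp e S ρ φ) * ((E' : ℂ) - Zp e S ρ φ)) := by
    apply intervalIntegral.integral_congr
    intro φ _
    exact h3 φ
  rw [h4]
  rw [Complex.real_smul, ← mul_assoc, ← Complex.ofReal_mul, mul_inv_cancel₀ (by positivity),
    Complex.ofReal_one, one_mul]

theorem Zp_im_pos (e S ρ φ : ℝ) (hρ : 0 ≤ ρ) (_hS : ρ < S) : S - ρ ≤ (Zp e S ρ φ).im := by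
  rw [Zp_im]
  have := Real.neg_one_le_cos φ
  nlinarith

/-- the integral of the inverse height -/
theorem inv_int (e S ρ η : ℝ) (hη : 0 < η) (hρ : ρ = S - η) (hS : 2 * η ≤ S) :
    ∫ φ in (0 : ℝ)..2 * Real.pi, 1 / (Zp e S ρ φ).im ≤ 10 / Real.sqrt (S * η) := by
  have hS0 : 0 < S := by linarith
  have hρ0 : 0 ≤ ρ := by linarith
  have hρS : ρ < S := by linarith
  obtain ⟨r, hr⟩ : ∃ r, r = Real.sqrt (S * η) := ⟨_, rfl⟩
  have hr0 : 0 < r := by rw [hr]; positivity
  have hr2 : r ^ 2 = S * η := by rw [hr]; exact Real.sq_sqrt (by positivity)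
  rw [← hr]
  have hpi := Real.pi_pos
  -- the comparison function
  have hF : ∀ φ : ℝ, HasDerivAt (fun φ : ℝ => Real.pi / r * Real.arctan (r / (η * Real.pi) * (φ - Real.pi)))
      (1 / (η + S * (φ - Real.pi) ^ 2 / Real.pi ^ 2)) φ := by
    intro φ
    have h1 : HasDerivAt (fun φ : ℝ => r / (η * Real.pi) * (φ - Real.pi)) (r / (η * Real.pi)) φ := by
      have := ((hasDerivAt_id φ).sub_const Real.pi).const_mul (r / (η * Real.pi))
      simpa using this
    have h2 := (h1.arctan).const_mul (Real.pi / r)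
    refine h2.congr_deriv ?_
    have h3 : (r / (η * Real.pi) * (φ - Real.pi)) ^ 2 = S * (φ - Real.pi) ^ 2 / (η * Real.pi ^ 2) := by
      rw [mul_pow, div_pow, hr2, mul_pow]
      field_simp
    rw [h3]
    field_simp
  have hle : ∀ φ ∈ Icc (0 : ℝ) (2 * Real.pi), 1 / (Zp e S ρ φ).im ≤
      1 / (η + S * (φ - Real.pi) ^ 2 / Real.pi ^ 2) := by
    intro φ hφ
    apply one_div_le_one_div_of_le (by positivity)
    rw [Zp_im]
    have h1 := Real.cos_le_one_sub_mul_cos_sq (x := φ - Real.pi) (by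
      rw [abs_le]
      constructor <;> linarith [hφ.1, hφ.2])
    rw [Real.cos_sub_pi] at h1
    have h2 : S / 2 ≤ ρ := by linarith
    have h3 : 1 - 2 / Real.pi ^ 2 * (φ - Real.pi) ^ 2 ≥ -Real.cos φ := h1
    have h4 : ρ * (-Real.cos φ) ≤ ρ * (1 - 2 / Real.pi ^ 2 * (φ - Real.pi) ^ 2) :=
      mul_le_mul_of_nonneg_left h3 hρ0
    have h5 : S / 2 * (2 / Real.pi ^ 2 * (φ - Real.pi) ^ 2) ≤
        ρ * (2 / Real.pi ^ 2 * (φ - Real.pi) ^ 2) :=
      mul_le_mul_of_nonneg_right h2 (by positivity)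
    have h6 : S / 2 * (2 / Real.pi ^ 2 * (φ - Real.pi) ^ 2) =
        S * (φ - Real.pi) ^ 2 / Real.pi ^ 2 := by ring
    linarith
  have hc1 : Continuous fun φ : ℝ => 1 / (Zp e S ρ φ).im := by
    apply Continuous.div continuous_const (Complex.continuous_im.comp (Zp_cont e S ρ))
    intro φ
    have := Zp_im_pos e S ρ φ hρ0 hρS
    have h2 : 0 < (Zp e S ρ φ).im := by linarith
    exact h2.ne'
  have hc2 : Continuous fun φ : ℝ => 1 / (η + S * (φ - Real.pi) ^ 2 / Real.pi ^ 2) := by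
    apply Continuous.div continuous_const (by fun_prop)
    intro φ
    positivity
  have h1 := intervalIntegral.integral_mono_on (μ := (volume : Measure ℝ))
    (by positivity : (0 : ℝ) ≤ 2 * Real.pi)
    (hc1.intervalIntegrable _ _) (hc2.intervalIntegrable _ _) hle
  refine h1.trans ?_
  rw [intervalIntegral.integral_eq_sub_of_hasDerivAt (fun φ _ => hF φ)
    (hc2.intervalIntegrable _ _)]
  have h3 := (Real.arctan_lt_pi_div_two (r / (η * Real.pi) * (2 * Real.pi - Real.pi))).le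
  have h4 := (Real.neg_pi_div_two_lt_arctan (r / (η * Real.pi) * (0 - Real.pi))).le
  have h5 : Real.pi / r * Real.arctan (r / (η * Real.pi) * (2 * Real.pi - Real.pi)) -
      Real.pi / r * Real.arctan (r / (η * Real.pi) * (0 - Real.pi)) ≤ Real.pi / r * Real.pi := by
    rw [← mul_sub]
    apply mul_le_mul_of_nonneg_left _ (by positivity)
    linarith
  refine h5.trans ?_
  rw [div_mul_eq_mul_div]
  apply div_le_div_of_nonneg_right _ hr0.le
  have := Real.pi_lt_d2
  nlinarith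

theorem sin_lip (a b : ℝ) : |Real.sin a - Real.sin b| ≤ |a - b| := by
  rw [Real.sin_sub_sin, abs_mul, abs_mul, abs_of_pos (by norm_num : (0 : ℝ) < 2)]
  have h1 := Real.abs_sin_le_abs (x := (a - b) / 2)
  have h2 := Real.abs_cos_le_one ((a + b) / 2)
  have h3 : |(a - b) / 2| = |a - b| / 2 := by
    rw [abs_div, abs_of_pos (by norm_num : (0 : ℝ) < 2)]
  have h4 : 0 ≤ |Real.sin ((a - b) / 2)| := abs_nonneg _
  nlinarith [abs_nonneg (a - b)]

/-- the lower bound for the pairs which are close to each other -/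
theorem low (E E' e S ρ η K s : ℝ) (hη : 0 < η) (hρ : ρ = S - η) (hK : 2 ≤ K)
    (hS : S = K * s) (hηs : η = s / K) (hE : |E - e| ≤ s) (hE' : |E' - E| ≤ η) :
    1 / (50 * (S * η)) ≤ ∫ φ in (0 : ℝ)..2 * Real.pi, 2 * (PK E (Zp e S ρ φ) * PK E' (Zp e S ρ φ)) := by
  have hK0 : 0 < K := by linarith
  have hs : 0 < s := by
    have : s = η * K := by rw [hηs]; field_simp
    rw [this]; positivity
  have hS0 : 0 < S := by rw [hS]; positivity
  have hηS : η * K ^ 2 = S := by rw [hηs, hS]; field_simp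
  have hSη : 4 * η ≤ S := by
    rw [← hηS]
    have h4 : (4 : ℝ) ≤ K ^ 2 := by nlinarith
    nlinarith [mul_le_mul_of_nonneg_left h4 hη.le]
  have hρ0 : 0 < ρ := by linarith
  have hρS : ρ < S := by linarith
  have hρ2 : S / 2 ≤ ρ := by linarith
  have hpi := Real.pi_gt_three
  have hpi2 := Real.pi_lt_d2
  -- the angle
  obtain ⟨t, ht⟩ : ∃ t, t = (E - e) / ρ := ⟨_, rfl⟩
  have ht1 : |t| ≤ 2 / K := by
    rw [ht, abs_div, abs_of_pos hρ0, div_le_div_iff₀ hρ0 hK0]
    calc |E - e| * K ≤ s * K := by gcongr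
      _ = S := by rw [hS]; ring
      _ ≤ 2 * ρ := by linarith
  have ht2 : |t| ≤ 1 := ht1.trans (by rw [div_le_one hK0]; exact hK)
  obtain ⟨ψ, hψ⟩ : ∃ ψ, ψ = Real.arcsin t := ⟨_, rfl⟩
  have hsin : Real.sin ψ = t := by
    rw [hψ]
    exact Real.sin_arcsin (by linarith [(abs_le.1 ht2).1]) (by linarith [(abs_le.1 ht2).2])
  have hψ1 : |ψ| ≤ Real.pi / 2 := by
    rw [hψ, abs_le]
    exact ⟨Real.neg_pi_div_two_le_arcsin t, Real.arcsin_le_pi_div_two t⟩
  have hψ2 : |ψ| ≤ Real.pi / K := by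
    have h1 := Real.mul_abs_le_abs_sin hψ1
    rw [hsin] at h1
    have h2 : 2 / Real.pi * |ψ| ≤ 2 / K := h1.trans ht1
    rw [div_mul_eq_mul_div, div_le_div_iff₀ (by positivity) hK0] at h2
    rw [le_div_iff₀ hK0]
    linarith
  obtain ⟨δ, hδ⟩ : ∃ δ, δ = η / S := ⟨_, rfl⟩
  have hδ0 : 0 < δ := by rw [hδ]; positivity
  have hδK : δ * K ^ 2 = 1 := by
    rw [hδ, div_mul_eq_mul_div, hηS]
    field_simp
  have hδ1 : δ ≤ 1 / (2 * K) := by
    rw [le_div_iff₀ (by positivity)]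
    have : δ * (2 * K) ≤ δ * K ^ 2 := by
      apply mul_le_mul_of_nonneg_left _ hδ0.le
      nlinarith
    linarith
  -- on the small arc
  have hpt : ∀ φ ∈ Icc (Real.pi + ψ) (Real.pi + ψ + δ),
      1 / (50 * η ^ 2) ≤ 2 * (PK E (Zp e S ρ φ) * PK E' (Zp e S ρ φ)) := by
    intro φ hφ
    obtain ⟨θ, hθ⟩ : ∃ θ, θ = φ - Real.pi := ⟨_, rfl⟩
    have hφθ : φ = θ + Real.pi := by rw [hθ]; ring
    have hθ1 : ψ ≤ θ := by rw [hθ]; linarith [hφ.1]
    have hθ2 : θ ≤ ψ + δ := by rw [hθ]; linarith [hφ.2]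
    obtain ⟨y, hy⟩ : ∃ y, y = (Zp e S ρ φ).im := ⟨_, rfl⟩
    obtain ⟨x, hx⟩ : ∃ x, x = (Zp e S ρ φ).re := ⟨_, rfl⟩
    have hy1 : y = S - ρ * Real.cos θ := by
      rw [hy, Zp_im, hφθ, Real.cos_add_pi]
      ring
    have hx1 : x = e + ρ * Real.sin θ := by
      rw [hx, Zp_re, hφθ, Real.sin_add_pi]
      ring
    have hθabs : |θ| ≤ 4 / K := by
      have h1 : |θ| ≤ |ψ| + δ := by
        have h2 := abs_add_le ψ (θ - ψ)
        rw [add_sub_cancel] at h2
        have h3 : |θ - ψ| ≤ δ := by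
          rw [abs_of_nonneg (by linarith)]
          linarith
        linarith
      refine h1.trans ?_
      have h2 : Real.pi / K ≤ 3.15 / K := by gcongr
      have h3 : 1 / (2 * K) = (1 / 2) / K := by
        field_simp
      have h4 : (3.15 : ℝ) / K + (1 / 2) / K ≤ 4 / K := by
        rw [← add_div]
        apply div_le_div_of_nonneg_right _ hK0.le
        norm_num
      linarith
    have hyl : η ≤ y := by
      rw [hy1]
      have := Real.cos_le_one θ
      nlinarith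
    have hyu : y ≤ 9 * η := by
      rw [hy1]
      have h1 := Real.one_sub_sq_div_two_le_cos (x := θ)
      have h2 : θ ^ 2 ≤ (4 / K) ^ 2 := by
        rw [← sq_abs]
        exact pow_le_pow_left₀ (abs_nonneg _) hθabs 2
      have h3 : ρ * (1 - θ ^ 2 / 2) ≤ ρ * Real.cos θ := mul_le_mul_of_nonneg_left h1 hρ0.le
      have h4 : ρ * (θ ^ 2 / 2) ≤ S * ((4 / K) ^ 2 / 2) := by gcongr
      have h5 : S * ((4 / K) ^ 2 / 2) = 8 * η := by
        rw [← hηS]
        field_simp
        norm_num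
      linarith
    have hxE : |E - x| ≤ η := by
      have h1 : E - x = ρ * (Real.sin ψ - Real.sin θ) := by
        rw [hx1, hsin, ht]
        field_simp
        ring
      rw [h1, abs_mul, abs_of_pos hρ0]
      have h2 : |Real.sin ψ - Real.sin θ| ≤ |ψ - θ| := by
        exact sin_lip ψ θ
      have h3 : |ψ - θ| ≤ δ := by
        rw [abs_sub_comm, abs_of_nonneg (by linarith)]
        linarith
      calc ρ * |Real.sin ψ - Real.sin θ| ≤ S * δ := by
            apply mul_le_mul hρS.le (h2.trans h3) (abs_nonneg _) hS0.le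
        _ = η := by rw [hδ]; field_simp
    have hxE' : |E' - x| ≤ 2 * η := by
      have h1 : E' - x = (E' - E) + (E - x) := by ring
      rw [h1]
      exact (abs_add_le _ _).trans (by linarith)
    have hy0 : 0 < y := hη.trans_le hyl
    have hP1 : 1 / (10 * η) ≤ PK E (Zp e S ρ φ) := by
      unfold PK
      rw [← hy, ← hx, div_le_div_iff₀ (by positivity) (by positivity)]
      have h1 : (E - x) ^ 2 ≤ η ^ 2 := by
        rw [← sq_abs]
        exact pow_le_pow_left₀ (abs_nonneg _) hxE 2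
      nlinarith [mul_nonneg (sub_nonneg.2 hyl) (sub_nonneg.2 hyu)]
    have hP2 : 1 / (10 * η) ≤ PK E' (Zp e S ρ φ) := by
      unfold PK
      rw [← hy, ← hx, div_le_div_iff₀ (by positivity) (by positivity)]
      have h1 : (E' - x) ^ 2 ≤ (2 * η) ^ 2 := by
        rw [← sq_abs]
        exact pow_le_pow_left₀ (abs_nonneg _) hxE' 2
      nlinarith [mul_nonneg (sub_nonneg.2 hyl) (sub_nonneg.2 hyu)]
    have h3 : 1 / (10 * η) * (1 / (10 * η)) ≤ PK E (Zp e S ρ φ) * PK E' (Zp e S ρ φ) :=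
      mul_le_mul hP1 hP2 (by positivity) (le_trans (by positivity) hP1)
    have h4 : 1 / (50 * η ^ 2) = 2 * (1 / (10 * η) * (1 / (10 * η))) := by
      field_simp
      norm_num
    rw [h4]
    linarith
  have hc : Continuous fun φ : ℝ => 2 * (PK E (Zp e S ρ φ) * PK E' (Zp e S ρ φ)) := by
    have h1 : ∀ E : ℝ, Continuous fun φ : ℝ => PK E (Zp e S ρ φ) := by
      intro E
      unfold PK
      have hz := Zp_cont e S ρ
      apply Continuous.div
      · exact Complex.continuous_im.comp hz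
      · exact ((continuous_const.sub (Complex.continuous_re.comp hz)).pow 2).add
          ((Complex.continuous_im.comp hz).pow 2)
      · intro φ
        have := Zp_im_pos e S ρ φ hρ0.le hρS
        have h2 : 0 < (Zp e S ρ φ).im := by linarith
        positivity
    exact continuous_const.mul ((h1 E).mul (h1 E'))
  have hnn : ∀ φ : ℝ, 0 ≤ 2 * (PK E (Zp e S ρ φ) * PK E' (Zp e S ρ φ)) := by
    intro φ
    have := Zp_im_pos e S ρ φ hρ0.le hρS
    have h2 : 0 < (Zp e S ρ φ).im := by linarith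
    have h3 := PK_nonneg (E := E) h2
    have h4 := PK_nonneg (E := E') h2
    positivity
  have hb1 : 0 ≤ Real.pi + ψ := by
    have := (abs_le.1 hψ1).1
    linarith
  have hb2 : Real.pi + ψ + δ ≤ 2 * Real.pi := by
    have h1 := (abs_le.1 hψ1).2
    have h2 : δ ≤ 1 / 4 := by
      refine hδ1.trans ?_
      rw [div_le_div_iff₀ (by positivity) (by norm_num)]
      linarith
    linarith
  have h1 := intervalIntegral.integral_mono_interval (μ := volume) hb1
    (by linarith : Real.pi + ψ ≤ Real.pi + ψ + δ) hb2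
    (Eventually.of_forall fun φ => hnn φ) (hc.intervalIntegrable _ _)
  refine le_trans ?_ h1
  have h2 := intervalIntegral.integral_mono_on (μ := (volume : Measure ℝ))
    (by linarith : Real.pi + ψ ≤ Real.pi + ψ + δ)
    (intervalIntegrable_const (μ := volume) (c := 1 / (50 * η ^ 2))) (hc.intervalIntegrable _ _) hpt
  refine le_trans ?_ h2
  rw [intervalIntegral.integral_const, smul_eq_mul]
  have h3 : Real.pi + ψ + δ - (Real.pi + ψ) = δ := by ring
  rw [h3, hδ]
  apply le_of_eq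
  field_simp

variable {ι : Type*} [Fintype ι]

/-- the sum with the complex conjugate -/
noncomputable def T1 (En : ι → ℝ) (W : ι → ι → ℝ) (z : ℂ) : ℂ :=
  ∑ m, ∑ n, (W m n : ℂ) * (1 / (((En m : ℂ) - z) * (starRingEnd ℂ) ((En n : ℂ) - z)))

/-- the sum without the complex conjugate -/
noncomputable def T2 (En : ι → ℝ) (W : ι → ι → ℝ) (z : ℂ) : ℂ :=
  ∑ m, ∑ n, (W m n : ℂ) * (1 / (((En m : ℂ) - z) * ((En n : ℂ) - z)))

theorem T2_le (En : ι → ℝ) (W : ι → ι → ℝ) (hW : ∀ m n, 0 ≤ W m n) (hW1 : ∀ m, ∑ n, W m n ≤ 1)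
    (hW2 : ∀ n, ∑ m, W m n ≤ 1) (z : ℂ) :
    ‖T2 En W z‖ ≤ ∑ n, 1 / ‖(En n : ℂ) - z‖ ^ 2 := by
  unfold T2
  have h1 : ∀ m n, ‖(W m n : ℂ) * (1 / (((En m : ℂ) - z) * ((En n : ℂ) - z)))‖ ≤
      W m n * (1 / ‖(En m : ℂ) - z‖ ^ 2) / 2 + W m n * (1 / ‖(En n : ℂ) - z‖ ^ 2) / 2 := by
    intro m n
    rw [norm_mul, norm_div, norm_one, norm_mul, Complex.norm_real, Real.norm_of_nonneg (hW m n)]
    obtain ⟨a, ha⟩ : ∃ a, a = ‖(En m : ℂ) - z‖⁻¹ := ⟨_, rfl⟩
    obtain ⟨b, hb⟩ : ∃ b, b = ‖(En n : ℂ) - z‖⁻¹ := ⟨_, rfl⟩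
    have e1 : 1 / (‖(En m : ℂ) - z‖ * ‖(En n : ℂ) - z‖) = a * b := by
      rw [ha, hb, one_div, mul_inv]
    have e2 : 1 / ‖(En m : ℂ) - z‖ ^ 2 = a ^ 2 := by rw [ha, inv_pow, one_div]
    have e3 : 1 / ‖(En n : ℂ) - z‖ ^ 2 = b ^ 2 := by rw [hb, inv_pow, one_div]
    rw [e1, e2, e3]
    nlinarith [mul_nonneg (hW m n) (sq_nonneg (a - b))]
  refine (norm_sum_le _ _).trans ((Finset.sum_le_sum fun m _ => norm_sum_le _ _).trans ?_)
  refine (Finset.sum_le_sum fun m _ => Finset.sum_le_sum fun n _ => h1 m n).trans ?_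
  have h2 : ∑ m, ∑ n, (W m n * (1 / ‖(En m : ℂ) - z‖ ^ 2) / 2 +
      W m n * (1 / ‖(En n : ℂ) - z‖ ^ 2) / 2) =
      (∑ m, (∑ n, W m n) * (1 / ‖(En m : ℂ) - z‖ ^ 2)) / 2 +
      (∑ n, (∑ m, W m n) * (1 / ‖(En n : ℂ) - z‖ ^ 2)) / 2 := by
    rw [Finset.sum_congr rfl fun m _ => Finset.sum_add_distrib, Finset.sum_add_distrib]
    congr 1
    · rw [Finset.sum_div]
      refine Finset.sum_congr rfl fun m _ => ?_
      rw [Finset.sum_mul, Finset.sum_div]
    · rw [Finset.sum_comm, Finset.sum_div]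
      refine Finset.sum_congr rfl fun m _ => ?_
      rw [Finset.sum_mul, Finset.sum_div]
  rw [h2]
  have h3 : ∑ m, (∑ n, W m n) * (1 / ‖(En m : ℂ) - z‖ ^ 2) ≤ ∑ n, 1 / ‖(En n : ℂ) - z‖ ^ 2 := by
    refine Finset.sum_le_sum fun m _ => ?_
    have : 0 ≤ 1 / ‖(En m : ℂ) - z‖ ^ 2 := by positivity
    nlinarith [hW1 m]
  have h4 : ∑ n, (∑ m, W m n) * (1 / ‖(En n : ℂ) - z‖ ^ 2) ≤ ∑ n, 1 / ‖(En n : ℂ) - z‖ ^ 2 := by
    refine Finset.sum_le_sum fun m _ => ?_
    have : 0 ≤ 1 / ‖(En m : ℂ) - z‖ ^ 2 := by positivity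
    nlinarith [hW2 m]
  linarith

theorem inv_cont (E E' e S ρ : ℝ) (hρ : 0 ≤ ρ) (hρS : ρ < S) :
    Continuous (fun φ : ℝ => 1 / (((E : ℂ) - Zp e S ρ φ) * (starRingEnd ℂ)
      ((E' : ℂ) - Zp e S ρ φ))) ∧
    Continuous (fun φ : ℝ => 1 / (((E : ℂ) - Zp e S ρ φ) * ((E' : ℂ) - Zp e S ρ φ))) := by
  have hz := Zp_cont e S ρ
  have hne : ∀ E : ℝ, ∀ φ : ℝ, (E : ℂ) - Zp e S ρ φ ≠ 0 := by
    intro E φ
    apply sub_ne
    have := Zp_im_pos e S ρ φ hρ hρS
    linarith
  constructor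
  · apply Continuous.div continuous_const
    · exact (continuous_const.sub hz).mul (Complex.continuous_conj.comp (continuous_const.sub hz))
    · intro φ
      apply mul_ne_zero (hne E φ)
      rw [map_ne_zero]
      exact hne E' φ
  · apply Continuous.div continuous_const
    · exact (continuous_const.sub hz).mul (continuous_const.sub hz)
    · intro φ
      exact mul_ne_zero (hne E φ) (hne E' φ)

/-- **from the sum with the complex conjugate to the pairs of close energies** -/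
theorem circ_key (En : ι → ℝ) (W : ι → ι → ℝ) (hW : ∀ m n, 0 ≤ W m n)
    (hW1 : ∀ m, ∑ n, W m n ≤ 1) (hW2 : ∀ n, ∑ m, W m n ≤ 1) (e s K τ τ0 Lc : ℝ)
    (hs : 0 < s) (hK : 2 ≤ K) (hτ : 0 ≤ τ) (hLc : 0 ≤ Lc)
    (hT : ∀ z : ℂ, s / K ≤ z.im → z.im ≤ 2 * (K * s) → |z.re - e| ≤ K * s →
      (T1 En W z).re ≤ τ / z.im * Lc)
    (hT0 : ∑ n, 1 / ‖(En n : ℂ) - ((e : ℂ) + ((K * s : ℝ) : ℂ) * Complex.I)‖ ^ 2 ≤
      τ0 / (K * s) * Lc) :
    ∑ m, ∑ n, (if |En m - e| ≤ s ∧ |En n - En m| ≤ s / K then W m n else 0) ≤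
      (500 * τ + 320 * τ0 / K) * s * Lc := by
  have hK0 : 0 < K := by linarith
  have hpi := Real.pi_pos
  obtain ⟨S, hS⟩ : ∃ S, S = K * s := ⟨_, rfl⟩
  obtain ⟨η, hη⟩ : ∃ η, η = s / K := ⟨_, rfl⟩
  obtain ⟨ρ, hρ⟩ : ∃ ρ, ρ = S - η := ⟨_, rfl⟩
  rw [← hS, ← hη] at hT
  rw [← hS] at hT0
  rw [← hη]
  have hS0 : 0 < S := by rw [hS]; positivity
  have hη0 : 0 < η := by rw [hη]; positivity
  have hηS : η * K ^ 2 = S := by rw [hη, hS]; field_simp
  have hSη : 4 * η ≤ S := by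
    rw [← hηS]
    have h4 : (4 : ℝ) ≤ K ^ 2 := by nlinarith
    nlinarith [mul_le_mul_of_nonneg_left h4 hη0.le]
  have hρ0 : 0 ≤ ρ := by linarith
  have hρS : ρ < S := by linarith
  have hSe : S * η = s ^ 2 := by rw [hS, hη]; field_simp
  have hsq : Real.sqrt (S * η) = s := by rw [hSe]; exact Real.sqrt_sq hs.le
  -- the identity
  have hid : ∑ m, ∑ n, W m n * ∫ φ in (0 : ℝ)..2 * Real.pi,
      2 * (PK (En m) (Zp e S ρ φ) * PK (En n) (Zp e S ρ φ)) =
      (∫ φ in (0 : ℝ)..2 * Real.pi, (T1 En W (Zp e S ρ φ)).re) -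
        2 * Real.pi * (T2 En W ((e : ℂ) + (S : ℂ) * Complex.I)).re := by
    have h1 : ∀ m n, ∫ φ in (0 : ℝ)..2 * Real.pi,
        2 * (PK (En m) (Zp e S ρ φ) * PK (En n) (Zp e S ρ φ)) =
        (∫ φ in (0 : ℝ)..2 * Real.pi, (1 / (((En m : ℂ) - Zp e S ρ φ) * (starRingEnd ℂ)
          ((En n : ℂ) - Zp e S ρ φ))).re) - 2 * Real.pi *
          (1 / (((En m : ℂ) - ((e : ℂ) + (S : ℂ) * Complex.I)) *
        ((En n : ℂ) - ((e : ℂ) + (S : ℂ) * Complex.I)))).re := by
      intro m n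
      obtain ⟨c1, c2⟩ := inv_cont (En m) (En n) e S ρ hρ0 hρS
      have k1 : Continuous fun φ : ℝ => (1 / (((En m : ℂ) - Zp e S ρ φ) * (starRingEnd ℂ)
          ((En n : ℂ) - Zp e S ρ φ))).re := Complex.continuous_re.comp c1
      have k2 : Continuous fun φ : ℝ => (1 / (((En m : ℂ) - Zp e S ρ φ) *
          ((En n : ℂ) - Zp e S ρ φ))).re := Complex.continuous_re.comp c2
      rw [intervalIntegral.integral_congr (fun φ _ => PK_prod (En m) (En n) (Zp e S ρ φ)),
        intervalIntegral.integral_sub (k1.intervalIntegrable _ _) (k2.intervalIntegrable _ _)]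
      congr 1
      have h2 := mean (En m) (En n) e S ρ hρ0 hρS
      have h3 := congrArg Complex.re h2
      rw [Complex.re_ofReal_mul] at h3
      rw [← h3]
      have h4 := Complex.reCLM.intervalIntegral_comp_comm (c2.intervalIntegrable (μ := volume) 0
        (2 * Real.pi))
      exact h4
    have h5 : ∀ φ : ℝ, (T1 En W (Zp e S ρ φ)).re = ∑ m, ∑ n, W m n *
        (1 / (((En m : ℂ) - Zp e S ρ φ) * (starRingEnd ℂ) ((En n : ℂ) - Zp e S ρ φ))).re := by
      intro φ
      unfold T1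
      rw [Complex.re_sum]
      refine Finset.sum_congr rfl fun m _ => ?_
      rw [Complex.re_sum]
      refine Finset.sum_congr rfl fun n _ => ?_
      rw [Complex.re_ofReal_mul]
    have h6 : (T2 En W ((e : ℂ) + (S : ℂ) * Complex.I)).re = ∑ m, ∑ n, W m n *
        (1 / (((En m : ℂ) - ((e : ℂ) + (S : ℂ) * Complex.I)) *
        ((En n : ℂ) - ((e : ℂ) + (S : ℂ) * Complex.I)))).re := by
      unfold T2
      rw [Complex.re_sum]
      refine Finset.sum_congr rfl fun m _ => ?_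
      rw [Complex.re_sum]
      refine Finset.sum_congr rfl fun n _ => ?_
      rw [Complex.re_ofReal_mul]
    rw [intervalIntegral.integral_congr (fun φ _ => h5 φ), h6]
    rw [intervalIntegral.integral_finsetSum]
    · rw [Finset.mul_sum, ← Finset.sum_sub_distrib]
      refine Finset.sum_congr rfl fun m _ => ?_
      rw [intervalIntegral.integral_finsetSum]
      · rw [Finset.mul_sum, ← Finset.sum_sub_distrib]
        refine Finset.sum_congr rfl fun n _ => ?_
        rw [h1 m n, intervalIntegral.integral_const_mul]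
        ring
      · intro n _
        obtain ⟨c1, c2⟩ := inv_cont (En m) (En n) e S ρ hρ0 hρS
        exact (continuous_const.mul (Complex.continuous_re.comp c1)).intervalIntegrable _ _
    · intro m _
      apply Continuous.intervalIntegrable
      apply continuous_finsetSum
      intro n _
      obtain ⟨c1, c2⟩ := inv_cont (En m) (En n) e S ρ hρ0 hρS
      exact continuous_const.mul (Complex.continuous_re.comp c1)
  -- the upper bound
  have hup : (∫ φ in (0 : ℝ)..2 * Real.pi, (T1 En W (Zp e S ρ φ)).re) ≤ τ * Lc * (10 / s) := by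
    have hc1 : Continuous fun φ : ℝ => (T1 En W (Zp e S ρ φ)).re := by
      unfold T1
      apply Complex.continuous_re.comp
      apply continuous_finsetSum
      intro m _
      apply continuous_finsetSum
      intro n _
      obtain ⟨c1, c2⟩ := inv_cont (En m) (En n) e S ρ hρ0 hρS
      exact continuous_const.mul c1
    have hc2 : Continuous fun φ : ℝ => 1 / (Zp e S ρ φ).im := by
      apply Continuous.div continuous_const (Complex.continuous_im.comp (Zp_cont e S ρ))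
      intro φ
      have := Zp_im_pos e S ρ φ hρ0 hρS
      have h2 : 0 < (Zp e S ρ φ).im := by linarith
      exact h2.ne'
    have h1 := intervalIntegral.integral_mono_on (μ := (volume : Measure ℝ))
      (by positivity : (0 : ℝ) ≤ 2 * Real.pi)
      (hc1.intervalIntegrable _ _) ((hc2.const_mul (τ * Lc)).intervalIntegrable _ _)
      (fun φ _ => by
        have h2 := Zp_im_pos e S ρ φ hρ0 hρS
        have h3 : S - ρ = η := by rw [hρ]; ring
        have h4 := hT (Zp e S ρ φ) (by linarith) (by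
          rw [Zp_im]
          have := Real.cos_le_one φ
          nlinarith) (by
          rw [Zp_re]
          have h5 : e - ρ * Real.sin φ - e = -(ρ * Real.sin φ) := by ring
          rw [h5, abs_neg, abs_mul, abs_of_nonneg hρ0]
          have h6 := Real.abs_sin_le_one φ
          nlinarith [abs_nonneg (Real.sin φ)])
        refine h4.trans (le_of_eq ?_)
        ring)
    refine h1.trans ?_
    rw [intervalIntegral.integral_const_mul]
    apply mul_le_mul_of_nonneg_left _ (mul_nonneg hτ hLc)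
    have h7 := inv_int e S ρ η hη0 hρ (by linarith)
    rwa [hsq] at h7
  have hT2 : -(2 * Real.pi * (T2 En W ((e : ℂ) + (S : ℂ) * Complex.I)).re) ≤
      2 * Real.pi * (τ0 / S * Lc) := by
    have h1 := T2_le En W hW hW1 hW2 ((e : ℂ) + (S : ℂ) * Complex.I)
    have h2 := Complex.abs_re_le_norm (T2 En W ((e : ℂ) + (S : ℂ) * Complex.I))
    have h3 := neg_abs_le (T2 En W ((e : ℂ) + (S : ℂ) * Complex.I)).re
    have h4 : -(T2 En W ((e : ℂ) + (S : ℂ) * Complex.I)).re ≤ τ0 / S * Lc := by linarith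
    nlinarith
  -- the lower bound
  have hlow : ∑ m, ∑ n, (if |En m - e| ≤ s ∧ |En n - En m| ≤ η then W m n else 0) *
      (1 / (50 * s ^ 2)) ≤ ∑ m, ∑ n, W m n * ∫ φ in (0 : ℝ)..2 * Real.pi,
      2 * (PK (En m) (Zp e S ρ φ) * PK (En n) (Zp e S ρ φ)) := by
    refine Finset.sum_le_sum fun m _ => Finset.sum_le_sum fun n _ => ?_
    split_ifs with hmn
    · apply mul_le_mul_of_nonneg_left _ (hW m n)
      have h1 := low (En m) (En n) e S ρ η K s hη0 hρ hK hS hη hmn.1 hmn.2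
      rwa [hSe] at h1
    · rw [zero_mul]
      apply mul_nonneg (hW m n)
      apply intervalIntegral.integral_nonneg (by positivity)
      intro φ _
      have := Zp_im_pos e S ρ φ hρ0 hρS
      have h2 : 0 < (Zp e S ρ φ).im := by linarith
      have h3 := PK_nonneg (E := En m) h2
      have h4 := PK_nonneg (E := En n) h2
      positivity
  have hfin : (∑ m, ∑ n, (if |En m - e| ≤ s ∧ |En n - En m| ≤ η then W m n else 0)) *
      (1 / (50 * s ^ 2)) ≤ τ * Lc * (10 / s) + 2 * Real.pi * (τ0 / S * Lc) := by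
    have h1 : (∑ m, ∑ n, (if |En m - e| ≤ s ∧ |En n - En m| ≤ η then W m n else 0)) *
        (1 / (50 * s ^ 2)) = ∑ m, ∑ n, (if |En m - e| ≤ s ∧ |En n - En m| ≤ η then W m n else 0) *
        (1 / (50 * s ^ 2)) := by
      rw [Finset.sum_mul]
      exact Finset.sum_congr rfl fun m _ => Finset.sum_mul _ _ _
    rw [h1]
    refine hlow.trans ?_
    rw [hid]
    linarith
  rw [mul_one_div, div_le_iff₀ (by positivity)] at hfin
  refine hfin.trans ?_
  have hτ0 : 0 ≤ τ0 / S * Lc := by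
    refine le_trans ?_ hT0
    exact Finset.sum_nonneg fun n _ => by positivity
  have h1 : (τ * Lc * (10 / s) + 2 * Real.pi * (τ0 / S * Lc)) * (50 * s ^ 2) =
      500 * τ * s * Lc + 100 * Real.pi * (τ0 / S * Lc) * s ^ 2 := by
    field_simp
    ring
  rw [h1]
  have h2 : 100 * Real.pi * (τ0 / S * Lc) * s ^ 2 ≤ 320 * (τ0 / S * Lc) * s ^ 2 := by
    have := Real.pi_lt_d2
    gcongr
    linarith
  have h3 : 320 * (τ0 / S * Lc) * s ^ 2 = 320 * τ0 / K * s * Lc := by
    rw [hS]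
    field_simp
  rw [h3] at h2
  linarith

end Pool.Agent.X133.QE
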