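import Pool.Agent.X133.QE.Circ
import Pool.Agent.X133.LL.Cnt

/-! Matrix elements of a multiplication operator between the eigenfunctions of a finite box. -/

set_option autoImplicit false
set_option linter.unusedSectionVars false

open scoped BigOperators Topology
open MeasureTheory Filter Set

namespace Pool.Agent.X133.QE

open Pool.Agent.W788.BK
open Pool.Agent.H4R2.LO (Zd)
open Pool.Agent.TH794.QE (Rs)
open Pool.Agent.X133.LL

variable {d : ℕ} {ι : Type*} [Fintype ι]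

/-- the coefficients of the Green function of the box -/
noncomputable def cG (u : ι → Zd d → ℂ) (En : ι → ℝ) (z : ℂ) (x : Zd d) (n : ι) : ℂ :=
  (starRingEnd ℂ) (u n x) / ((En n : ℂ) - z)

/-- the Green function of the box -/
noncomputable def Gb (u : ι → Zd d → ℂ) (En : ι → ℝ) (z : ℂ) (x y : Zd d) : ℂ :=
  ∑ n, cG u En z x n * u n y

/-- the matrix elements of a multiplication operator -/
noncomputable def Am (Λ : Finset (Zd d)) (u : ι → Zd d → ℂ) (a : Zd d → ℂ) (m n : ι) : ℂ :=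
  ∑ x ∈ Λ, (starRingEnd ℂ) (u m x) * (a x * u n x)

theorem toE_comb (Λ : Finset (Zd d)) (u : ι → Zd d → ℂ) (c : ι → ℂ) :
    toE Λ (fun y => ∑ n, c n * u n y) = ∑ n, c n • toE Λ (u n) := by
  ext y
  rw [WithLp.ofLp_sum, Finset.sum_apply]
  unfold toE
  simp [smul_eq_mul]

theorem Gb_norm {Λ : Finset (Zd d)} {V : Zd d → ℝ} {u : ι → Zd d → ℂ} {En : ι → ℝ}
    (h : EF Λ V u En) (z : ℂ) (x : Zd d) :
    ∑ y ∈ Λ, ‖Gb u En z x y‖ ^ 2 = ∑ n, ‖cG u En z x n‖ ^ 2 := by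
  rw [← comb_sq (ortho h) fun n => cG u En z x n, ← toE_comb, norm_toE]
  rfl

theorem Am_bessel1 {Λ : Finset (Zd d)} {V : Zd d → ℝ} {u : ι → Zd d → ℂ} {En : ι → ℝ}
    (h : EF Λ V u En) (a : Zd d → ℂ) (ha : ∀ x, ‖a x‖ ≤ 1) (n : ι) :
    ∑ m, ‖Am Λ u a m n‖ ^ 2 ≤ 1 := by
  have h1 := bessel (ortho h) (toE Λ fun x => a x * u n x)
  have h2 : ∀ m, (inner ℂ (toE Λ (u m)) (toE Λ fun x => a x * u n x) : ℂ) = Am Λ u a m n := by
    intro m
    rw [inner_toE]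
    rfl
  rw [Finset.sum_congr rfl fun m _ => by rw [h2 m]] at h1
  refine h1.trans ?_
  rw [norm_toE, ← h.one n]
  refine Finset.sum_le_sum fun x _ => ?_
  rw [norm_mul, mul_pow]
  have h3 : ‖a x‖ ^ 2 ≤ 1 := pow_le_one₀ (norm_nonneg _) (ha x)
  nlinarith [sq_nonneg ‖u n x‖]

theorem Am_conj (Λ : Finset (Zd d)) (u : ι → Zd d → ℂ) (a : Zd d → ℂ) (m n : ι) :
    (starRingEnd ℂ) (Am Λ u a m n) = Am Λ u (fun x => (starRingEnd ℂ) (a x)) n m := by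
  unfold Am
  rw [map_sum]
  refine Finset.sum_congr rfl fun x _ => ?_
  rw [map_mul, map_mul, Complex.conj_conj]
  ring

theorem Am_bessel2 {Λ : Finset (Zd d)} {V : Zd d → ℝ} {u : ι → Zd d → ℂ} {En : ι → ℝ}
    (h : EF Λ V u En) (a : Zd d → ℂ) (ha : ∀ x, ‖a x‖ ≤ 1) (m : ι) :
    ∑ n, ‖Am Λ u a m n‖ ^ 2 ≤ 1 := by
  have h1 := Am_bessel1 h (fun x => (starRingEnd ℂ) (a x)) (fun x => by
    rw [Complex.norm_conj]; exact ha x) m
  refine le_trans (le_of_eq ?_) h1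
  refine Finset.sum_congr rfl fun n _ => ?_
  rw [← Am_conj, Complex.norm_conj]

/-- the sum with the complex conjugate in the position space -/
theorem T1_pos (Λ : Finset (Zd d)) (u : ι → Zd d → ℂ) (En : ι → ℝ) (a : Zd d → ℂ) (z : ℂ) :
    T1 En (fun m n => ‖Am Λ u a m n‖ ^ 2) z =
      ∑ x ∈ Λ, a x * ∑ y ∈ Λ, (starRingEnd ℂ) (a y) * ((‖Gb u En z x y‖ ^ 2 : ℝ) : ℂ) := by
  have h1 : ∀ x y, ((‖Gb u En z x y‖ ^ 2 : ℝ) : ℂ) = ∑ m, ∑ n, cG u En z x m * u m y *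
      (starRingEnd ℂ) (cG u En z x n * u n y) := by
    intro x y
    have h2 : ((‖Gb u En z x y‖ ^ 2 : ℝ) : ℂ) = Gb u En z x y * (starRingEnd ℂ) (Gb u En z x y) := by
      rw [Complex.mul_conj, Complex.normSq_eq_norm_sq]
    rw [h2]
    unfold Gb
    rw [map_sum, Finset.sum_mul_sum]
  have h3 : ∑ x ∈ Λ, a x * ∑ y ∈ Λ, (starRingEnd ℂ) (a y) * ((‖Gb u En z x y‖ ^ 2 : ℝ) : ℂ) =
      ∑ m, ∑ n, ∑ x ∈ Λ, ∑ y ∈ Λ, a x * ((starRingEnd ℂ) (a y) * (cG u En z x m * u m y *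
      (starRingEnd ℂ) (cG u En z x n * u n y))) := by
    have h4 : ∀ x ∈ Λ, a x * ∑ y ∈ Λ, (starRingEnd ℂ) (a y) * ((‖Gb u En z x y‖ ^ 2 : ℝ) : ℂ) =
        ∑ m, ∑ n, ∑ y ∈ Λ, a x * ((starRingEnd ℂ) (a y) * (cG u En z x m * u m y *
      (starRingEnd ℂ) (cG u En z x n * u n y))) := by
      intro x _
      rw [Finset.mul_sum]
      have h5 : ∀ y ∈ Λ, a x * ((starRingEnd ℂ) (a y) * ((‖Gb u En z x y‖ ^ 2 : ℝ) : ℂ)) =
          ∑ m, ∑ n, a x * ((starRingEnd ℂ) (a y) * (cG u En z x m * u m y *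
      (starRingEnd ℂ) (cG u En z x n * u n y))) := by
        intro y _
        rw [h1, Finset.mul_sum, Finset.mul_sum]
        refine Finset.sum_congr rfl fun m _ => ?_
        rw [Finset.mul_sum, Finset.mul_sum]
      rw [Finset.sum_congr rfl h5, Finset.sum_comm]
      refine Finset.sum_congr rfl fun m _ => ?_
      rw [Finset.sum_comm]
    rw [Finset.sum_congr rfl h4, Finset.sum_comm]
    refine Finset.sum_congr rfl fun m _ => ?_
    rw [Finset.sum_comm]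
  rw [h3]
  unfold T1
  refine Finset.sum_congr rfl fun m _ => Finset.sum_congr rfl fun n _ => ?_
  have h6 : ((‖Am Λ u a m n‖ ^ 2 : ℝ) : ℂ) = Am Λ u a m n * (starRingEnd ℂ) (Am Λ u a m n) := by
    rw [Complex.mul_conj, Complex.normSq_eq_norm_sq]
  rw [h6, Am_conj]
  have h7 : ∑ x ∈ Λ, ∑ y ∈ Λ, a x * ((starRingEnd ℂ) (a y) * (cG u En z x m * u m y *
      (starRingEnd ℂ) (cG u En z x n * u n y))) =
      (1 / (((En m : ℂ) - z) * (starRingEnd ℂ) ((En n : ℂ) - z))) *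
      ((∑ x ∈ Λ, (starRingEnd ℂ) (u m x) * (a x * u n x)) *
      (∑ y ∈ Λ, (starRingEnd ℂ) (u n y) * ((starRingEnd ℂ) (a y) * u m y))) := by
    rw [Finset.sum_mul_sum, Finset.mul_sum]
    refine Finset.sum_congr rfl fun x _ => ?_
    rw [Finset.mul_sum]
    refine Finset.sum_congr rfl fun y _ => ?_
    unfold cG
    rw [map_mul, map_div₀, Complex.conj_conj, ← one_div_mul_one_div]
    ring
  rw [h7]
  unfold Am
  ring

/-- the comparison with the Green function of the lattice -/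
theorem Gb_cmp {Λ : Finset (Zd d)} {V : Zd d → ℝ} {u : ι → Zd d → ℂ}
    {En : ι → ℝ} (h : EF Λ V u En) (hcard : Fintype.card ι = Λ.card) {x0 : Zd d} (hx0 : x0 ∈ Λ)
    {e η : ℝ} (hη : 0 < η) {g : Zd d → ℂ} (hg : Rs d V x0 e η g) :
    ∑ y ∈ Λ, ‖g y - Gb u En ((e : ℂ) + (η : ℂ) * Complex.I) x0 y‖ ^ 2 ≤
      (η⁻¹) ^ 2 * ∑ y ∈ Λ, ‖kk Λ g y‖ ^ 2 := by
  have hO := ortho h
  have hfr : Fintype.card ι = Module.finrank ℂ (EuclideanSpace ℂ Λ) := by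
    rw [finrank_euclideanSpace, hcard, Fintype.card_coe]
  have hsp : ⊤ ≤ Submodule.span ℂ (Set.range fun n => toE Λ (u n)) :=
    (hO.linearIndependent.span_eq_top_of_card_eq_finrank' hfr).ge
  have h1 := (OrthonormalBasis.mk hO hsp).sum_repr' (toE Λ g)
  simp only [OrthonormalBasis.coe_mk] at h1
  obtain ⟨z, hz⟩ : ∃ z, z = ((e : ℂ) + (η : ℂ) * Complex.I) := ⟨_, rfl⟩
  rw [← hz]
  have hne : ∀ n, (En n : ℂ) - z ≠ 0 := fun n => by
    intro h0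
    have h2 := z_ge (En n) e η
    rw [← hz, h0, norm_zero] at h2
    linarith
  have h2 : ∀ n, (inner ℂ (toE Λ (u n)) (toE Λ g) : ℂ) = cG u En z x0 n +
      (inner ℂ (toE Λ (u n)) (toE Λ (kk Λ g)) : ℂ) / ((En n : ℂ) - z) := by
    intro n
    have h3 := key h hx0 hg n
    rw [← hz] at h3
    unfold cG
    rw [← add_div, ← h3]
    field_simp [hne n]
  have h4 : toE Λ (fun y => g y - Gb u En z x0 y) =
      ∑ n, ((inner ℂ (toE Λ (u n)) (toE Λ (kk Λ g)) : ℂ) / ((En n : ℂ) - z)) • toE Λ (u n) := by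
    have h5 : toE Λ (fun y => g y - Gb u En z x0 y) = toE Λ g - toE Λ (Gb u En z x0) := rfl
    have h6 : toE Λ (Gb u En z x0) = ∑ n, cG u En z x0 n • toE Λ (u n) := toE_comb Λ u _
    rw [h5, h6, ← h1, ← Finset.sum_sub_distrib]
    refine Finset.sum_congr rfl fun n _ => ?_
    rw [h2 n, ← sub_smul, add_sub_cancel_left]
  rw [← norm_toE Λ (fun y => g y - Gb u En z x0 y), h4, comb_sq hO]
  refine (quot_sq _ (fun n => (En n : ℂ) - z) η hη (fun n => by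
    rw [hz]; exact z_ge _ _ _)).trans ?_
  rw [← norm_toE]
  exact mul_le_mul_of_nonneg_left (bessel hO _) (by positivity)

/-- what is needed at a site -/
structure SiteOK (Λ : Finset (Zd d)) (V : Zd d → ℝ) (a : Zd d → ℂ) (x : Zd d) (e η τ1 C1 K' : ℝ)
    (g : Zd d → ℂ) : Prop where
  rs : Rs d V x e η g
  prof : ‖∑' y, (starRingEnd ℂ) (a y) * ((‖g y‖ ^ 2 : ℝ) : ℂ)‖ ≤ τ1 / η
  mass : ∑' y, ‖g y‖ ^ 2 ≤ C1 / η
  bd : ∑ y ∈ Λ, ‖kk Λ g y‖ ^ 2 ≤ K' * η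
  far : ∑' y, (if y ∈ Λ then 0 else ‖g y‖ ^ 2) ≤ K' / η

theorem tsum_split {g : Zd d → ℂ} (hg : Summable fun x => ‖g x‖ ^ 2) (b : Zd d → ℂ)
    (hb : ∀ x, ‖b x‖ ≤ 1) (Λ : Finset (Zd d)) :
    ‖∑ y ∈ Λ, b y * ((‖g y‖ ^ 2 : ℝ) : ℂ)‖ ≤
      ‖∑' y, b y * ((‖g y‖ ^ 2 : ℝ) : ℂ)‖ + ∑' y, (if y ∈ Λ then 0 else ‖g y‖ ^ 2) := by
  have hs1 : Summable fun y => b y * ((‖g y‖ ^ 2 : ℝ) : ℂ) := by
    apply Summable.of_norm_bounded hg
    intro y
    rw [norm_mul, Complex.norm_real, Real.norm_of_nonneg (sq_nonneg _)]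
    exact mul_le_of_le_one_left (sq_nonneg _) (hb y)
  have hs2 : Summable fun y => (if y ∈ Λ then (0 : ℝ) else ‖g y‖ ^ 2) := by
    refine Summable.of_nonneg_of_le (fun x => ?_) (fun x => ?_) hg
    · split_ifs <;> positivity
    · split_ifs
      · positivity
      · exact le_rfl
  have hs3 : Summable fun y => (if y ∈ Λ then (0 : ℂ) else b y * ((‖g y‖ ^ 2 : ℝ) : ℂ)) := by
    apply Summable.of_norm_bounded hs2
    intro y
    split_ifs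
    · rw [norm_zero]
    · rw [norm_mul, Complex.norm_real, Real.norm_of_nonneg (sq_nonneg _)]
      exact mul_le_of_le_one_left (sq_nonneg _) (hb y)
  have h1 : ∑ y ∈ Λ, b y * ((‖g y‖ ^ 2 : ℝ) : ℂ) = (∑' y, b y * ((‖g y‖ ^ 2 : ℝ) : ℂ)) -
      ∑' y, (if y ∈ Λ then (0 : ℂ) else b y * ((‖g y‖ ^ 2 : ℝ) : ℂ)) := by
    rw [← hs1.tsum_sub hs3]
    rw [tsum_eq_sum (s := Λ)]
    · refine Finset.sum_congr rfl fun y hy => ?_
      rw [if_pos hy, sub_zero]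
    · intro y hy
      rw [if_neg hy, sub_self]
  rw [h1]
  refine (norm_sub_le _ _).trans ?_
  apply add_le_add le_rfl
  refine (norm_tsum_le_tsum_norm hs3.norm).trans ?_
  refine hs3.norm.tsum_le_tsum (fun y => ?_) hs2
  split_ifs
  · rw [norm_zero]
  · rw [norm_mul, Complex.norm_real, Real.norm_of_nonneg (sq_nonneg _)]
    exact mul_le_of_le_one_left (sq_nonneg _) (hb y)

/-- the Green function of the box, tested at a good site -/
theorem site_bd {Λ : Finset (Zd d)} {V : Zd d → ℝ} {u : ι → Zd d → ℂ}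
    {En : ι → ℝ} (h : EF Λ V u En) (hcard : Fintype.card ι = Λ.card) {x0 : Zd d} (hx0 : x0 ∈ Λ)
    {a : Zd d → ℂ} (ha : ∀ x, ‖a x‖ ≤ 1)
    {e η τ1 C1 K' δ : ℝ} (hη : 0 < η) (hδ : 0 < δ) {g : Zd d → ℂ}
    (hg : SiteOK Λ V a x0 e η τ1 C1 K' g) :
    ‖∑ y ∈ Λ, (starRingEnd ℂ) (a y) *
        ((‖Gb u En ((e : ℂ) + (η : ℂ) * Complex.I) x0 y‖ ^ 2 : ℝ) : ℂ)‖ ≤
      (τ1 + K' + δ * C1 + (1 + 1 / δ) * K') / η ∧
    ∑ y ∈ Λ, ‖Gb u En ((e : ℂ) + (η : ℂ) * Complex.I) x0 y‖ ^ 2 ≤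
      (C1 + δ * C1 + (1 + 1 / δ) * K') / η := by
  obtain ⟨G, hG⟩ : ∃ G, G = Gb u En ((e : ℂ) + (η : ℂ) * Complex.I) x0 := ⟨_, rfl⟩
  have hcmp := Gb_cmp h hcard hx0 hη hg.rs
  rw [← hG] at hcmp ⊢
  have hr : ∑ y ∈ Λ, ‖g y - G y‖ ^ 2 ≤ K' / η := by
    refine hcmp.trans ?_
    calc (η⁻¹) ^ 2 * ∑ y ∈ Λ, ‖kk Λ g y‖ ^ 2 ≤ (η⁻¹) ^ 2 * (K' * η) := by
          apply mul_le_mul_of_nonneg_left hg.bd (by positivity)
      _ = K' / η := by field_simp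
  have hW : ∑ y ∈ Λ, ‖g y‖ ^ 2 ≤ C1 / η :=
    (hg.rs.sq.sum_le_tsum Λ fun y _ => sq_nonneg _).trans hg.mass
  have hpt : ∀ y, |‖G y‖ ^ 2 - ‖g y‖ ^ 2| ≤ δ * ‖g y‖ ^ 2 + (1 + 1 / δ) * ‖g y - G y‖ ^ 2 := by
    intro y
    obtain ⟨A, hA⟩ : ∃ A, A = ‖G y‖ := ⟨_, rfl⟩
    obtain ⟨Bv, hB⟩ : ∃ Bv, Bv = ‖g y‖ := ⟨_, rfl⟩
    obtain ⟨r, hrr⟩ : ∃ r, r = ‖g y - G y‖ := ⟨_, rfl⟩
    have hA0 : 0 ≤ A := by rw [hA]; exact norm_nonneg _
    have hB0 : 0 ≤ Bv := by rw [hB]; exact norm_nonneg _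
    have hr0 : 0 ≤ r := by rw [hrr]; exact norm_nonneg _
    have h1 : |A - Bv| ≤ r := by
      rw [hA, hB, hrr, abs_sub_comm]
      exact abs_norm_sub_norm_le _ _
    rw [← hA, ← hB, ← hrr]
    have h2 : |A ^ 2 - Bv ^ 2| ≤ r * (2 * Bv + r) := by
      have h3 : A ^ 2 - Bv ^ 2 = (A - Bv) * (A + Bv) := by ring
      rw [h3, abs_mul, abs_of_nonneg (add_nonneg hA0 hB0)]
      have h4 : A ≤ Bv + r := by
        have := (abs_le.1 h1).2
        linarith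
      apply mul_le_mul h1 (by linarith) (by positivity) hr0
    refine h2.trans ?_
    have h5 : 2 * (r * Bv) ≤ δ * Bv ^ 2 + 1 / δ * r ^ 2 := by
      have h6 : 0 ≤ (Real.sqrt δ * Bv - r / Real.sqrt δ) ^ 2 := sq_nonneg _
      have h7 : 0 < Real.sqrt δ := Real.sqrt_pos.2 hδ
      have h8 : (Real.sqrt δ * Bv - r / Real.sqrt δ) ^ 2 =
          δ * Bv ^ 2 - 2 * (r * Bv) + 1 / δ * r ^ 2 := by
        have h9 : (Real.sqrt δ) ^ 2 = δ := Real.sq_sqrt hδ.le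
        have h10 : (Real.sqrt δ * Bv - r / Real.sqrt δ) ^ 2 =
            (Real.sqrt δ) ^ 2 * Bv ^ 2 - 2 * (r * Bv) + 1 / (Real.sqrt δ) ^ 2 * r ^ 2 := by
          field_simp
          ring
        rw [h10, h9]
      linarith
    nlinarith
  have hsum : ∑ y ∈ Λ, |‖G y‖ ^ 2 - ‖g y‖ ^ 2| ≤ δ * (C1 / η) + (1 + 1 / δ) * (K' / η) := by
    refine (Finset.sum_le_sum fun y _ => hpt y).trans ?_
    rw [Finset.sum_add_distrib, ← Finset.mul_sum, ← Finset.mul_sum]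
    gcongr
  constructor
  · have h1 := tsum_split hg.rs.sq (fun y => (starRingEnd ℂ) (a y)) (fun y => by
      rw [Complex.norm_conj]; exact ha y) Λ
    have h2 : ‖∑ y ∈ Λ, (starRingEnd ℂ) (a y) * ((‖g y‖ ^ 2 : ℝ) : ℂ)‖ ≤ τ1 / η + K' / η :=
      h1.trans (add_le_add hg.prof hg.far)
    have h3 : ∑ y ∈ Λ, (starRingEnd ℂ) (a y) * ((‖G y‖ ^ 2 : ℝ) : ℂ) =
        ∑ y ∈ Λ, (starRingEnd ℂ) (a y) * ((‖g y‖ ^ 2 : ℝ) : ℂ) +
        ∑ y ∈ Λ, (starRingEnd ℂ) (a y) * ((‖G y‖ ^ 2 - ‖g y‖ ^ 2 : ℝ) : ℂ) := by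
      rw [← Finset.sum_add_distrib]
      refine Finset.sum_congr rfl fun y _ => ?_
      rw [← mul_add]
      congr 1
      push_cast
      ring
    rw [h3]
    refine (norm_add_le _ _).trans ?_
    have h4 : ‖∑ y ∈ Λ, (starRingEnd ℂ) (a y) * ((‖G y‖ ^ 2 - ‖g y‖ ^ 2 : ℝ) : ℂ)‖ ≤
        ∑ y ∈ Λ, |‖G y‖ ^ 2 - ‖g y‖ ^ 2| := by
      refine (norm_sum_le _ _).trans (Finset.sum_le_sum fun y _ => ?_)
      rw [norm_mul, Complex.norm_conj, Complex.norm_real, Real.norm_eq_abs]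
      exact mul_le_of_le_one_left (abs_nonneg _) (ha y)
    have h5 : (τ1 + K' + δ * C1 + (1 + 1 / δ) * K') / η = τ1 / η + K' / η +
        (δ * (C1 / η) + (1 + 1 / δ) * (K' / η)) := by ring
    rw [h5]
    linarith
  · have h1 : ∑ y ∈ Λ, ‖G y‖ ^ 2 ≤ ∑ y ∈ Λ, ‖g y‖ ^ 2 + ∑ y ∈ Λ, |‖G y‖ ^ 2 - ‖g y‖ ^ 2| := by
      rw [← Finset.sum_add_distrib]
      refine Finset.sum_le_sum fun y _ => ?_
      have := le_abs_self (‖G y‖ ^ 2 - ‖g y‖ ^ 2)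
      linarith
    have h5 : (C1 + δ * C1 + (1 + 1 / δ) * K') / η = C1 / η +
        (δ * (C1 / η) + (1 + 1 / δ) * (K' / η)) := by ring
    rw [h5]
    linarith

/-- the trivial bound -/
theorem triv_bd {Λ : Finset (Zd d)} {V : Zd d → ℝ} {u : ι → Zd d → ℂ}
    {En : ι → ℝ} (h : EF Λ V u En) {x0 : Zd d} (hx0 : x0 ∈ Λ) {z : ℂ} (hz : 0 < z.im) :
    ∑ y ∈ Λ, ‖Gb u En z x0 y‖ ^ 2 ≤ 1 / z.im ^ 2 := by
  rw [Gb_norm h]
  have h1 := bessel_site h hx0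
  have h2 : ∀ n, ‖cG u En z x0 n‖ ^ 2 ≤ 1 / z.im ^ 2 * ‖u n x0‖ ^ 2 := by
    intro n
    unfold cG
    rw [norm_div, Complex.norm_conj, div_pow, div_eq_mul_inv, mul_comm, one_div]
    apply mul_le_mul_of_nonneg_right _ (sq_nonneg _)
    apply inv_anti₀ (by positivity)
    apply pow_le_pow_left₀ hz.le
    have h3 := Complex.abs_im_le_norm ((En n : ℂ) - z)
    simp only [Complex.sub_im, Complex.ofReal_im, zero_sub, abs_neg] at h3
    exact (le_abs_self _).trans h3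
  refine (Finset.sum_le_sum fun n _ => h2 n).trans ?_
  rw [← Finset.mul_sum]
  exact mul_le_of_le_one_right (by positivity) h1

/-- **the deterministic theorem** -/
theorem det_main {Λ : Finset (Zd d)} {V : Zd d → ℝ} {u : ι → Zd d → ℂ}
    {En : ι → ℝ} (h : EF Λ V u En) (hcard : Fintype.card ι = Λ.card)
    {a : Zd d → ℂ} (ha : ∀ x, ‖a x‖ ≤ 1) (B : Finset (Zd d)) (hB : B ⊆ Λ)
    {e s K τ1 C1 K' δ β : ℝ} (hs : 0 < s) (hK : 2 ≤ K) (hτ1 : 0 ≤ τ1) (hC1 : 0 ≤ C1)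
    (hK' : 0 ≤ K') (hδ : 0 < δ) (hβ : 0 ≤ β)
    (hsite : ∀ x ∈ Λ \ B, ∀ e' η' : ℝ, s / K ≤ η' → η' ≤ 2 * (K * s) → |e' - e| ≤ K * s →
      ∃ g, SiteOK Λ V a x e' η' τ1 C1 K' g)
    (hBc : (B.card : ℝ) ≤ β * (s / K) * Λ.card) :
    ∑ m, ∑ n, (if |En m - e| ≤ s ∧ |En n - En m| ≤ s / K then ‖Am Λ u a m n‖ ^ 2 else 0) ≤
      (500 * (τ1 + K' + δ * C1 + (1 + 1 / δ) * K' + β) +
        320 * (C1 + δ * C1 + (1 + 1 / δ) * K' + β) / K) * s * Λ.card := by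
  have hK0 : 0 < K := by linarith
  have hLc : (0 : ℝ) ≤ Λ.card := Nat.cast_nonneg _
  have hBcard : ∀ η : ℝ, s / K ≤ η → (B.card : ℝ) * (1 / η ^ 2) ≤ β / η * Λ.card := by
    intro η hη
    have hη0 : 0 < η := lt_of_lt_of_le (by positivity) hη
    have h1 : (B.card : ℝ) ≤ β * η * Λ.card := hBc.trans (by gcongr)
    calc (B.card : ℝ) * (1 / η ^ 2) ≤ β * η * Λ.card * (1 / η ^ 2) := by gcongr
      _ = β / η * Λ.card := by field_simp
  have hcardΛ : ((Λ \ B).card : ℝ) ≤ Λ.card := by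
    exact_mod_cast Finset.card_le_card Finset.sdiff_subset
  have hall : ∀ z : ℂ, s / K ≤ z.im → z.im ≤ 2 * (K * s) → |z.re - e| ≤ K * s →
      (T1 En (fun m n => ‖Am Λ u a m n‖ ^ 2) z).re ≤
        (τ1 + K' + δ * C1 + (1 + 1 / δ) * K' + β) / z.im * Λ.card ∧
      ∑ x ∈ Λ, ∑ y ∈ Λ, ‖Gb u En z x y‖ ^ 2 ≤
        (C1 + δ * C1 + (1 + 1 / δ) * K' + β) / z.im * Λ.card := by
    intro z hz1 hz2 hz3
    have hz0 : 0 < z.im := lt_of_lt_of_le (by positivity) hz1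
    have hzz : z = ((z.re : ℂ) + (z.im : ℂ) * Complex.I) := (Complex.re_add_im z).symm
    have hgood : ∀ x ∈ Λ \ B, ‖∑ y ∈ Λ, (starRingEnd ℂ) (a y) *
        ((‖Gb u En z x y‖ ^ 2 : ℝ) : ℂ)‖ ≤ (τ1 + K' + δ * C1 + (1 + 1 / δ) * K') / z.im ∧
        ∑ y ∈ Λ, ‖Gb u En z x y‖ ^ 2 ≤ (C1 + δ * C1 + (1 + 1 / δ) * K') / z.im := by
      intro x hx
      obtain ⟨g, hg⟩ := hsite x hx z.re z.im hz1 hz2 hz3
      have h1 := site_bd h hcard (Finset.mem_sdiff.1 hx).1 ha hz0 hδ hg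
      rw [← hzz] at h1
      exact h1
    constructor
    · refine (Complex.re_le_norm _).trans ?_
      rw [T1_pos, ← Finset.sum_sdiff hB]
      refine (norm_add_le _ _).trans ?_
      have h1 : ‖∑ x ∈ Λ \ B, a x * ∑ y ∈ Λ, (starRingEnd ℂ) (a y) *
          ((‖Gb u En z x y‖ ^ 2 : ℝ) : ℂ)‖ ≤
          (Λ.card : ℝ) * ((τ1 + K' + δ * C1 + (1 + 1 / δ) * K') / z.im) := by
        refine (norm_sum_le _ _).trans ?_
        refine (Finset.sum_le_sum (g := fun _ =>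
          (τ1 + K' + δ * C1 + (1 + 1 / δ) * K') / z.im) fun x hx => ?_).trans ?_
        · rw [norm_mul]
          refine le_trans ?_ (hgood x hx).1
          exact mul_le_of_le_one_left (norm_nonneg _) (ha x)
        · rw [Finset.sum_const, nsmul_eq_mul]
          apply mul_le_mul_of_nonneg_right hcardΛ
          positivity
      have h2 : ‖∑ x ∈ B, a x * ∑ y ∈ Λ, (starRingEnd ℂ) (a y) *
          ((‖Gb u En z x y‖ ^ 2 : ℝ) : ℂ)‖ ≤ (B.card : ℝ) * (1 / z.im ^ 2) := by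
        refine (norm_sum_le _ _).trans ?_
        refine (Finset.sum_le_sum (g := fun _ => 1 / z.im ^ 2) fun x hx => ?_).trans ?_
        · rw [norm_mul]
          refine (mul_le_of_le_one_left (norm_nonneg _) (ha x)).trans ?_
          refine le_trans ?_ (triv_bd h (hB hx) hz0)
          refine (norm_sum_le _ _).trans (Finset.sum_le_sum fun y _ => ?_)
          rw [norm_mul, Complex.norm_conj, Complex.norm_real, Real.norm_of_nonneg (sq_nonneg _)]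
          exact mul_le_of_le_one_left (sq_nonneg _) (ha y)
        · rw [Finset.sum_const, nsmul_eq_mul]
      have h3 := hBcard z.im hz1
      have h4 : (τ1 + K' + δ * C1 + (1 + 1 / δ) * K' + β) / z.im * (Λ.card : ℝ) =
          (Λ.card : ℝ) * ((τ1 + K' + δ * C1 + (1 + 1 / δ) * K') / z.im) +
          β / z.im * Λ.card := by ring
      rw [h4]
      linarith
    · rw [← Finset.sum_sdiff hB]
      have h1 : ∑ x ∈ Λ \ B, ∑ y ∈ Λ, ‖Gb u En z x y‖ ^ 2 ≤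
          (Λ.card : ℝ) * ((C1 + δ * C1 + (1 + 1 / δ) * K') / z.im) := by
        refine (Finset.sum_le_sum (g := fun _ =>
          (C1 + δ * C1 + (1 + 1 / δ) * K') / z.im) fun x hx => (hgood x hx).2).trans ?_
        rw [Finset.sum_const, nsmul_eq_mul]
        apply mul_le_mul_of_nonneg_right hcardΛ
        positivity
      have h2 : ∑ x ∈ B, ∑ y ∈ Λ, ‖Gb u En z x y‖ ^ 2 ≤ (B.card : ℝ) * (1 / z.im ^ 2) := by
        refine (Finset.sum_le_sum (g := fun _ => 1 / z.im ^ 2) fun x hx =>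
          triv_bd h (hB hx) hz0).trans ?_
        rw [Finset.sum_const, nsmul_eq_mul]
      have h3 := hBcard z.im hz1
      have h4 : (C1 + δ * C1 + (1 + 1 / δ) * K' + β) / z.im * (Λ.card : ℝ) =
          (Λ.card : ℝ) * ((C1 + δ * C1 + (1 + 1 / δ) * K') / z.im) +
          β / z.im * Λ.card := by ring
      rw [h4]
      linarith
  apply circ_key En (fun m n => ‖Am Λ u a m n‖ ^ 2) (fun m n => sq_nonneg _)
    (fun m => Am_bessel2 h a ha m) (fun n => Am_bessel1 h a ha n) e s K _ _ Λ.card hs hK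
    (by positivity) hLc (fun z hz1 hz2 hz3 => (hall z hz1 hz2 hz3).1)
  obtain ⟨z, hz⟩ : ∃ z, z = ((e : ℂ) + ((K * s : ℝ) : ℂ) * Complex.I) := ⟨_, rfl⟩
  rw [← hz]
  have hzim : z.im = K * s := by rw [hz]; simp
  have hzre : z.re = e := by rw [hz]; simp
  have hKs : s / K ≤ K * s := by
    rw [div_le_iff₀ hK0]
    nlinarith [mul_pos hK0 hs]
  have h1 := (hall z (by rw [hzim]; exact hKs) (by
    rw [hzim]
    have : 0 < K * s := by positivity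
    linarith) (by
    rw [hzre, sub_self, abs_zero]
    positivity)).2
  rw [hzim] at h1
  refine le_trans (le_of_eq ?_) h1
  rw [Finset.sum_congr rfl fun x _ => Gb_norm h z x, Finset.sum_comm]
  refine Finset.sum_congr rfl fun n _ => ?_
  have h2 : ∀ x, ‖cG u En z x n‖ ^ 2 = ‖u n x‖ ^ 2 / ‖(En n : ℂ) - z‖ ^ 2 := by
    intro x
    unfold cG
    rw [norm_div, Complex.norm_conj, div_pow]
  rw [Finset.sum_congr rfl fun x _ => h2 x, ← Finset.sum_div, h.one n]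

end Pool.Agent.X133.QE
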