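import Pool.Agent.X133.QE.Full

/-! Quantum ergodicity in the boxes, dimension at least three, bounded potentials. -/

set_option autoImplicit false
set_option linter.unusedSectionVars false

open scoped BigOperators Topology
open MeasureTheory Filter Set

namespace Pool.Agent.X133.QE

open Pool.Agent.W788.BK
open Pool.Agent.H4R2.LO (Zd)
open Pool.Agent.W788.BK.Num
open Pool.Agent.TH794.QD
open Pool.Agent.TH794.QE
open Pool.Agent.TH794.HK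
open Pool.Agent.X133.LL

/-- the statement for the box -/
def Concl (d : ℕ) (V : Zd d → ℝ) (f : C(UnitAddTorus (Fin d), ℂ)) (L : ℕ) (c0 K c1 A ε c e s : ℝ) :
    Prop :=
  ∀ (ι : Type) [Fintype ι] (u : ι → Zd d → ℂ) (En : ι → ℝ),
    EF (Bx 0 L) V u En →
    Fintype.card ι = (Bx (0 : Zd d) L).card →
    c0 * s * (Bx (0 : Zd d) L).card ≤ (Nat.card {n : ι // |En n - e| ≤ s} : ℝ) ∧
    (∀ p : Fin d → ℝ, c1 * (c ^ 2 * s) ≤ ∑ i, p i ^ 2 →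
      ∑ i, p i ^ 2 ≤ A * (c ^ 2 * s) →
      ∑ m, ∑ n, (if |En m - e| ≤ s ∧ |En n - En m| ≤ s / K then
        ‖Am (Bx 0 L) u (ph p) m n‖ ^ 2 else 0) ≤ ε * s * (Bx (0 : Zd d) L).card) ∧
    (∀ ℓ : ℝ, 0 < ℓ → c1 * (c ^ 2 * s) ≤ 1 / ℓ ^ 2 → 1 / ℓ ^ 2 ≤ A * (c ^ 2 * s) →
      (Nat.card {n : ι // |En n - e| ≤ s ∧ ε < ‖∑ x ∈ Bx (0 : Zd d) L,
        f (pt ℓ x) * ((‖u n x‖ ^ 2 : ℝ) : ℂ) -
          ∫ t : UnitAddTorus (Fin d), f t‖} : ℝ) ≤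
        ε * s * (Bx (0 : Zd d) L).card)

theorem fin3 (hES : S_ES) (hTH : S_THIRD) (hFL : S_FLUCT) (hIN : S_INV)
    (hSU : S_SUP) (hQB : S_QB) (hLO : S_LOW) (hAD : S_ADM) (hFA : S_FAC) (hO : S_OSC)
    (d : ℕ) (hd : 3 ≤ d) (κ : ℝ) (hκ : 0 < κ) (hκ1 : κ ≤ 1) :
    ∃ c0 : ℝ, 0 < c0 ∧ ∀ b v ε : ℝ, 0 < b → 0 < v → 0 < ε → ∀ f : C(UnitAddTorus (Fin d), ℂ),
    ∃ K c1 : ℝ, 16 ≤ K ∧ 0 < c1 ∧ ∀ A : ℝ, 0 < A →
    ∃ lam0 : ℝ, 0 < lam0 ∧ ∀ lam : ℝ, 0 < lam → lam ≤ lam0 →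
    ∀ (μ : Measure ℝ), IsProbabilityMeasure μ → (∀ᵐ s ∂μ, |s| ≤ b) →
    ∀ Mn V : ℝ, ∫ s, s ∂μ = Mn → ∫ s, (s - Mn) ^ 2 ∂μ = V → v ≤ V →
      ∃ G : Set (Zd d → ℝ), MeasurableSet G ∧
        1 - Real.exp (-lam ^ (-(1 / 102) : ℝ)) ≤
          (Measure.infinitePi fun _ : Zd d => μ).real G ∧
        ∀ ω ∈ G, ∀ L : ℕ, 1 / lam ^ 9 ≤ (L : ℝ) → ∀ e : ℝ,
          |2 * d + lam * Mn - e| ≤ 2 * d - κ →
          ∀ s : ℝ, lam ^ (83 / 41 : ℝ) ≤ s → s ≤ lam ^ (151 / 75 : ℝ) →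
          Concl d (fun x => 2 * d + lam * ω x) f L c0 K c1 A ε lam e s := by
  obtain ⟨⟨m, hm, hl⟩, hfin⟩ := finN hES hTH hFL hIN hSU hQB hLO hAD hFA hO d hd (κ / 2)
    (by positivity) (by linarith)
  have hd1 : 1 ≤ d := by omega
  have hd0 : (0 : ℝ) < d := by
    have : 0 < d := by omega
    exact_mod_cast this
  obtain ⟨C, hCd⟩ : ∃ C, C = ‖GF (F0 d) 0‖ + CH d * (2 * d : ℝ) ^ (1 / 8 : ℝ) := ⟨_, rfl⟩
  have hC : ∀ E : ℝ, |E| ≤ 2 * d - κ / 2 → (GF (F0 d) (E : ℂ)).im ≤ C := by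
    intro E hE
    have h1 := hol0 hO d hd (E : ℂ) 0 (by simp) (by simp)
    rw [sub_zero, Complex.norm_real, Real.norm_eq_abs] at h1
    have h2 : |E| ^ (1 / 8 : ℝ) ≤ (2 * d : ℝ) ^ (1 / 8 : ℝ) :=
      Real.rpow_le_rpow (abs_nonneg _) (by linarith) (by norm_num)
    have h3 := CH_nonneg d
    have h4 : (GF (F0 d) (E : ℂ)).im ≤ ‖GF (F0 d) (E : ℂ)‖ :=
      (le_abs_self _).trans (Complex.abs_im_le_norm _)
    have h5 : ‖GF (F0 d) (E : ℂ)‖ ≤ ‖GF (F0 d) 0‖ + ‖GF (F0 d) (E : ℂ) - GF (F0 d) 0‖ := by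
      have := norm_add_le (GF (F0 d) 0) (GF (F0 d) (E : ℂ) - GF (F0 d) 0)
      rwa [add_sub_cancel] at this
    have h6 : CH d * |E| ^ (1 / 8 : ℝ) ≤ CH d * (2 * d : ℝ) ^ (1 / 8 : ℝ) := by gcongr
    rw [hCd]
    linarith
  have hC0 : 0 ≤ C := by
    rw [hCd]
    have := CH_nonneg d
    positivity
  refine ⟨m / 512, by positivity, fun b v ε hb hv hε f => ?_⟩
  obtain ⟨K, c1, hK, hc1, habs⟩ := qe_full d hd1 m C ε v (2 * b) hm hC0 hε hv (by positivity) f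
  refine ⟨K, c1, hK, hc1, fun A hA => ?_⟩
  obtain ⟨N, err0, lam1, hN, herr0, hlam1, habs⟩ := habs A hA
  obtain ⟨cf, hcf, hG⟩ := hfin b v ((N : ℝ) ^ 2) hb hv (by positivity)
  have hev : ∀ᶠ c in 𝓝[>] (0 : ℝ),
      (1 * c ^ (1 / 200 : ℝ) ≤ err0) ∧ (K * c ^ (1 / 1640 : ℝ) ≤ 1) ∧
      (10 ^ d * Real.exp (-c ^ (-(1 / 101) : ℝ)) / c ^ 3 ≤ Real.exp (-c ^ (-(1 / 102) : ℝ))) ∧
      (1 * c ^ (1 : ℝ) ≤ min 1 (min lam1 cf)) ∧ (2 * K * c ^ (1 / 1200 : ℝ) ≤ 1) ∧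
      (1 * c ^ (161 / 80 : ℝ) ≤ κ / 2) := by
    filter_upwards [ev_pow 1 err0 (1 / 200) herr0 (by norm_num),
      ev_pow K 1 (1 / 1640) one_pos (by norm_num), ev_prob d,
      ev_pow 1 (min 1 (min lam1 cf)) 1 (by positivity) one_pos,
      ev_pow (2 * K) 1 (1 / 1200) one_pos (by norm_num),
      ev_pow 1 (κ / 2) (161 / 80) (by positivity) (by norm_num)] with c h1 h2 h3 h4 h5 h6
    exact ⟨h1, h2, h3, h4, h5, h6⟩
  obtain ⟨lam0, hlam0, hev2⟩ := mem_nhdsGT_iff_exists_Ioc_subset.1 hev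
  refine ⟨lam0, hlam0, fun c hc hcl μ hμ hμb Mn V hMn hV hvV => ?_⟩
  obtain ⟨n1, n2, n3, n4, n5, n6⟩ := hev2 ⟨hc, hcl⟩
  rw [one_mul] at n1 n4 n6
  rw [Real.rpow_one] at n4
  have hc1' : c ≤ 1 := n4.trans (min_le_left _ _)
  have hcl1 : c ≤ lam1 := n4.trans ((min_le_right _ _).trans (min_le_left _ _))
  have hcf1 : c ≤ cf := n4.trans ((min_le_right _ _).trans (min_le_right _ _))
  obtain ⟨G1, hG1m, hG1P, hG1⟩ := hG c hc hcf1 μ hμ hμb Mn V hMn hV hvV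
  have hVpos : 0 < V := hv.trans_le hvV
  have hVb := var_le b μ hμb Mn V hMn hV
  obtain ⟨G, hGm, hGP, hGω⟩ := habs c hc hcl1 μ Mn V hvV hVb
    (fun E => |E| ≤ 2 * d - κ / 2) (fun E => GF (F0 d) (E : ℂ)) (fun E => GF (F1 d) (E : ℂ))
    (fun E hE => ⟨(hl E hE).1, (hl E hE).2, hC E hE⟩)
    (c ^ (81 / 40 : ℝ)) (c ^ (161 / 80 : ℝ)) (c ^ (1 / 200 : ℝ)) le_rfl
    (Real.rpow_le_one hc.le hc1' (by norm_num)) (by positivity) n1 G1 hG1m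
    (fun ω hω e he η hη1 hη2 => by
      have hη0 : 0 < η := lt_of_lt_of_le (by positivity) hη1
      obtain ⟨hωb, hprf⟩ := hG1 ω hω
      refine ⟨rs_exists (fun x => 2 * d + c * ω x) (2 * d + c * b)
        (fun x => ?_) 0 e η hη0, fun u hu p hp => ?_⟩
      · have h1 := hωb x
        have h2 : |2 * (d : ℝ) + c * ω x| ≤ |2 * (d : ℝ)| + |c * ω x| := abs_add_le _ _
        have h3 : |c * ω x| ≤ c * b := by
          rw [abs_mul, abs_of_pos hc]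
          gcongr
        have h4 : |2 * (d : ℝ)| = 2 * d := abs_of_pos (by positivity)
        linarith
      · exact hprf 0 (by
          rw [norm_zero]
          positivity) e he η hη1 hη2 u hu p hp)
  refine ⟨G, hGm, ?_, ?_⟩
  · refine le_trans ?_ hGP
    rw [probReal_compl_eq_one_sub hG1m]
    have h1 : 10 ^ d * (1 - (Measure.infinitePi fun _ : Zd d => μ).real G1) / c ^ 3 ≤
        10 ^ d * Real.exp (-c ^ (-(1 / 101) : ℝ)) / c ^ 3 := by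
      gcongr
      linarith
    linarith
  · intro ω hω L hL e he s hs1 hs2
    have hs16 : K * c ^ (81 / 40 : ℝ) ≤ s := by
      have h1 : c ^ (81 / 40 : ℝ) = c ^ (83 / 41 : ℝ) * c ^ (1 / 1640 : ℝ) := by
        rw [← Real.rpow_add hc]
        congr 1
        norm_num
      have h2 : 0 < c ^ (83 / 41 : ℝ) := by positivity
      calc K * c ^ (81 / 40 : ℝ) = c ^ (83 / 41 : ℝ) * (K * c ^ (1 / 1640 : ℝ)) := by
            rw [h1]; ring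
        _ ≤ c ^ (83 / 41 : ℝ) * 1 := by gcongr
        _ ≤ s := by rw [mul_one]; exact hs1
    have hs17 : 2 * (K * s) ≤ c ^ (161 / 80 : ℝ) := by
      have h1 : c ^ (151 / 75 : ℝ) = c ^ (161 / 80 : ℝ) * c ^ (1 / 1200 : ℝ) := by
        rw [← Real.rpow_add hc]
        congr 1
        norm_num
      have hK0 : 0 < K := by linarith
      calc 2 * (K * s) ≤ 2 * (K * c ^ (151 / 75 : ℝ)) := by gcongr
        _ = c ^ (161 / 80 : ℝ) * (2 * K * c ^ (1 / 1200 : ℝ)) := by rw [h1]; ring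
        _ ≤ c ^ (161 / 80 : ℝ) * 1 := by gcongr
        _ = _ := mul_one _
    intro ι _ u En hEF hcard
    refine hGω ω hω L hL e (fun e' he' => ?_) s hs16 hs17 ι u En hEF hcard
    have h1 : |2 * d + c * Mn - e'| ≤ |2 * d + c * Mn - e| + |e' - e| := by
      have := abs_add_le (2 * d + c * Mn - e) (-(e' - e))
      rw [abs_neg] at this
      have h2 : 2 * d + c * Mn - e + -(e' - e) = 2 * d + c * Mn - e' := by ring
      rwa [h2] at this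
    linarith

end Pool.Agent.X133.QE
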