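import Pool.Agent.X133.QE.Fin3
import Pool.Agent.X133.GK.LL

/-! Quantum ergodicity in the boxes, Gaussian potentials. -/

set_option autoImplicit false
set_option linter.unusedSectionVars false

open scoped BigOperators Topology
open MeasureTheory ProbabilityTheory Filter

namespace Pool.Agent.X133.QE

open Pool.Agent.W788.BK
open Pool.Agent.H4R2.LO (Zd)
open Pool.Agent.W788.BK.Num
open Pool.Agent.TH794.QD
open Pool.Agent.TH794.QE
open Pool.Agent.TH794.HK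
open Pool.Agent.X133.GA (Gr gr_Rs gr_exists ev_lin ev_exp)
open Pool.Agent.X133.LL (EF Bx sh)
open Pool.Agent.X133.GK

/-- **quantum ergodicity in the boxes, Gaussian potentials** -/
theorem finG (hES : S_ES) (hTH : S_THIRD) (hFL : S_FLUCT) (hIN : S_INV)
    (hSU : S_SUP) (hQB : S_QB) (hLO : S_LOW) (hAD : S_ADM) (hFA : S_FAC) (hO : S_OSC)
    (d : ℕ) (hd : 3 ≤ d) (κ' : ℝ) (hκ' : 0 < κ') (hκ1' : κ' ≤ 1) :
    ∃ c0 : ℝ, 0 < c0 ∧ ∀ ε : ℝ, 0 < ε → ∀ f : C(UnitAddTorus (Fin d), ℂ),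
    ∃ K c1 : ℝ, 16 ≤ K ∧ 0 < c1 ∧ ∀ A : ℝ, 0 < A →
    ∃ σ₀ : ℝ, 0 < σ₀ ∧ ∀ σ : ℝ, 0 < σ → σ ≤ σ₀ →
      ∃ G : Set (Zd d → ℝ), MeasurableSet G ∧
        1 - Real.exp (-σ ^ (-(1 / 1300) : ℝ)) ≤
          (Measure.infinitePi fun _ : Zd d => gaussianReal 0 1).real G ∧
        ∀ ω ∈ G, ∀ L : ℕ, 1 / σ ^ 9 ≤ (L : ℝ) → ∀ e : ℝ, |2 * d - e| ≤ 2 * d - κ' →
          ∀ s : ℝ, σ ^ (103 / 51 : ℝ) ≤ s → s ≤ σ ^ (151 / 75 : ℝ) →
          Concl d (fun x => 2 * d + σ * ω x) f L c0 K c1 A ε σ e s := by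
  obtain ⟨κ, hκd⟩ : ∃ κ, κ = κ' / 2 := ⟨_, rfl⟩
  have hκ : 0 < κ := by rw [hκd]; positivity
  have hκ1 : κ ≤ 1 := by rw [hκd]; linarith
  obtain ⟨⟨m, hm, hl⟩, hEng⟩ := engKv3 hES hTH hFL hIN hSU hQB hLO hAD hFA hO d hd κ hκ hκ1
  have hd1 : 1 ≤ d := by omega
  have hd0 : (0 : ℝ) < d := by
    have : 0 < d := by omega
    exact_mod_cast this
  obtain ⟨C, hCd⟩ : ∃ C, C = ‖GF (F0 d) 0‖ + CH d * (2 * d : ℝ) ^ (1 / 8 : ℝ) := ⟨_, rfl⟩
  have hC : ∀ E : ℝ, |E| ≤ 2 * d - κ → (GF (F0 d) (E : ℂ)).im ≤ C := by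
    intro E hE
    have h1 := hol0 hO d hd (E : ℂ) 0 (by simp) (by simp)
    rw [sub_zero, Complex.norm_real, Real.norm_eq_abs] at h1
    have h2 : |E| ^ (1 / 8 : ℝ) ≤ (2 * d : ℝ) ^ (1 / 8 : ℝ) :=
      Real.rpow_le_rpow (abs_nonneg _) (by linarith) (by norm_num)
    have h3 := CH_nonneg d
    have h4 : (GF (F0 d) (E : ℂ)).im ≤ ‖GF (F0 d) (E : ℂ)‖ :=
      (le_abs_self _).trans (Complex.abs_im_le_norm _)
    have h5 : ‖GF (F0 d) (E : ℂ)‖ ≤ ‖GF (F0 d) 0‖ + ‖GF (F0 d) (E : ℂ) - GF (F0 d) 0‖ := by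
      have := norm_add_le (GF (F0 d) 0) (GF (F0 d) (E : ℂ) - GF (F0 d) 0)
      rwa [add_sub_cancel] at this
    have h6 : CH d * |E| ^ (1 / 8 : ℝ) ≤ CH d * (2 * d : ℝ) ^ (1 / 8 : ℝ) := by gcongr
    rw [hCd]
    linarith
  have hC0 : 0 ≤ C := by
    rw [hCd]
    have := CH_nonneg d
    positivity
  refine ⟨m / 512, by positivity, fun ε hε f => ?_⟩
  obtain ⟨K, c1, hK, hc1, habs0⟩ := qe_full d hd1 m C ε 1 1 hm hC0 hε one_pos one_pos f
  refine ⟨K, c1, hK, hc1, fun A hA => ?_⟩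
  obtain ⟨N, err0, lam0, hN, herr0, hlam0, habs⟩ := habs0 A hA
  obtain ⟨Y0, hY0, hgp⟩ := gProf d hd1 (fun E => |E| ≤ 2 * d - κ) (fun E => GF (F0 d) (E : ℂ))
    (fun E => GF (F1 d) (E : ℂ)) ((N : ℝ) ^ 2) (by positivity)
    (hEng 1 (2 * (2 * (N : ℝ) ^ 2)) one_pos (by positivity)) (fun E hE => by
      obtain ⟨h1, h2⟩ := hl E hE
      exact ⟨by linarith, by linarith, h2⟩)
  obtain ⟨Y1, hY1⟩ := Filter.eventually_atTop.1
    ((ev_exp (Real.log (10 ^ d)) 1 (1 / 1300) (1 / 1250) (by norm_num) (by norm_num)).and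
    ((ev_lin 0 3 (1 / 1250) (by norm_num)).and
    ((ev_exp 0 1 (1 / 1250) (1 / 1200) (by norm_num) (by norm_num)).and
    ((ev_lin (Real.log 2) 0 (1 / 1250) (by norm_num)).and
    (ev_exp 0 2 (1 / 1250) (1 / 1200) (by norm_num) (by norm_num))))))
  have hev : ∀ᶠ c in 𝓝[>] (0 : ℝ),
      (1 * c ^ (1 / 310 : ℝ) ≤ err0) ∧ (K * c ^ (1 / 2550 : ℝ) ≤ 1) ∧
      (1 * c ^ (1 : ℝ) ≤ min (min lam0 1) (min (Real.exp (-Y0)) (Real.exp (-Y1)))) ∧
      (2 * K * c ^ (1 / 1200 : ℝ) ≤ 1) ∧ (1 * c ^ (161 / 80 : ℝ) ≤ κ' / 2) := by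
    filter_upwards [Pool.Agent.X133.LL.ev_pow 1 err0 (1 / 310) herr0 (by norm_num),
      Pool.Agent.X133.LL.ev_pow K 1 (1 / 2550) one_pos (by norm_num),
      Pool.Agent.X133.LL.ev_pow 1 (min (min lam0 1) (min (Real.exp (-Y0)) (Real.exp (-Y1)))) 1 (by positivity)
        one_pos,
      Pool.Agent.X133.LL.ev_pow (2 * K) 1 (1 / 1200) one_pos (by norm_num),
      Pool.Agent.X133.LL.ev_pow 1 (κ' / 2) (161 / 80) (by positivity) (by norm_num)]
      with c h1 h2 h3 h4 h5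
    exact ⟨h1, h2, h3, h4, h5⟩
  obtain ⟨σ₀, hσ₀, hev2⟩ := mem_nhdsGT_iff_exists_Ioc_subset.1 hev
  refine ⟨σ₀, hσ₀, fun σ hσ hσσ₀ => ?_⟩
  obtain ⟨n1, n2, n3, n5, n6⟩ := hev2 ⟨hσ, hσσ₀⟩
  rw [one_mul] at n1 n3 n6
  rw [Real.rpow_one] at n3
  have k1 : σ ≤ lam0 := n3.trans ((min_le_left _ _).trans (min_le_left _ _))
  have k2 : σ ≤ 1 := n3.trans ((min_le_left _ _).trans (min_le_right _ _))
  have k3 : σ ≤ Real.exp (-Y0) := n3.trans ((min_le_right _ _).trans (min_le_left _ _))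
  have k4 : σ ≤ Real.exp (-Y1) := n3.trans ((min_le_right _ _).trans (min_le_right _ _))
  obtain ⟨Y, hY⟩ : ∃ Y, Y = -Real.log σ := ⟨_, rfl⟩
  have hYY0 : Y0 ≤ Y := by
    have h1 := Real.log_le_log hσ k3
    rw [Real.log_exp] at h1
    linarith
  have hYY1 : Y1 ≤ Y := by
    have h1 := Real.log_le_log hσ k4
    rw [Real.log_exp] at h1
    linarith
  obtain ⟨e1, e2, e3, e4, e5⟩ := hY1 Y hYY1
  have hσe : Real.exp (-Y) = σ := by rw [hY, neg_neg, Real.exp_log hσ]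
  have hpow : ∀ p : ℝ, σ ^ p = Real.exp (-p * Y) := by
    intro p
    rw [Real.rpow_def_of_pos hσ, hY]
    congr 1
    ring
  have hσ2 : Real.exp (-2 * Y) = σ ^ 2 := by
    rw [← hσe, ← Real.exp_nat_mul]
    congr 1
    push_cast
    ring
  obtain ⟨G, hG, hP, hL⟩ := hgp Y hYY0
  have hmn : Measurable fun (ξ : Zd d → ℝ) (x : Zd d) => -ξ x :=
    measurable_pi_lambda _ fun x => (measurable_pi_apply x).neg
  obtain ⟨G1, hG1⟩ : ∃ G1 : Set (Zd d → ℝ), G1 = (fun ξ x => -ξ x) ⁻¹' G := ⟨_, rfl⟩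
  have hG1m : MeasurableSet G1 := by rw [hG1]; exact hmn hG
  have hG1P : (Measure.infinitePi fun _ : Zd d => gaussianReal 0 1).real G1 =
      (Measure.infinitePi fun _ : Zd d => gaussianReal 0 1).real G := by
    rw [hG1]
    conv_rhs => rw [← law_neg d]
    rw [map_measureReal_apply hmn hG]
  obtain ⟨G2, hG2m, hG2P, hG2⟩ := habs σ hσ k1 (gaussianReal 0 1) 0 1 le_rfl (by norm_num)
    (fun E => |E| ≤ 2 * d - κ) (fun E => GF (F0 d) (E : ℂ)) (fun E => GF (F1 d) (E : ℂ))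
    (fun E hE => ⟨(hl E hE).1, (hl E hE).2, hC E hE⟩)
    (σ ^ (101 / 50 : ℝ)) (σ ^ (161 / 80 : ℝ)) (σ ^ (1 / 310 : ℝ))
    (Real.rpow_le_rpow_of_exponent_ge hσ k2 (by norm_num))
    (Real.rpow_le_one hσ.le k2 (by norm_num)) (by positivity) n1 G1 hG1m (by
      intro ω hω e he η hη1 hη2
      have hη0 : 0 < η := lt_of_lt_of_le (by positivity) hη1
      have he' : |2 * (d : ℝ) - e| ≤ 2 * d - κ := by
        have h1 : 2 * (d : ℝ) + σ * 0 - e = 2 * d - e := by ring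
        rwa [h1] at he
      refine ⟨?_, fun u hu p hp => ?_⟩
      · obtain ⟨u, hu⟩ := gr_exists (fun x => -(σ * ω x)) 0 (2 * d - e) η hη0
        have h1 := gr_Rs hu (fun x => σ * ω x) (fun x => (neg_neg _).symm)
        rw [sub_sub_cancel] at h1
        exact ⟨_, h1⟩
      · have h1 := rs_gr (V := fun x => Real.exp (-Y) * (fun x => -ω x) x)
          (ω := fun x => σ * ω x) hu (fun x => by
            simp only
            rw [hσe]
            ring)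
        have h2 : (fun x => -ω x) ∈ G := by
          have := hω
          rw [hG1] at this
          exact this
        have h3 := hL _ h2 0 (by rw [norm_zero]; positivity) (2 * d - e) η he'
          (by rw [hpow] at hη1; exact hη1) (by rw [hpow] at hη2; exact hη2) _ h1 p (by
            rw [hσ2]
            rw [mul_one] at hp
            exact hp)
        rw [conj_sum, hσ2] at h3
        rw [mul_one, hpow (1 / 310)]
        have h4 : 2 * (d : ℝ) + σ * 0 - e = 2 * d - e := by ring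
        rw [h4]
        exact h3)
  refine ⟨G2, hG2m, ?_, ?_⟩
  · refine le_trans ?_ hG2P
    have h1 : (Measure.infinitePi fun _ : Zd d => gaussianReal 0 1).real G1ᶜ ≤
        Real.exp (-Real.exp (1 / 1200 * Y)) := by
      rw [probReal_compl_eq_one_sub hG1m, hG1P]
      have : 1 - Real.exp (-Real.exp (1 / 1200 * Y)) ≤
        (Measure.infinitePi fun _ : Zd d => gaussianReal 0 1).real G := hP
      linarith
    have h2 : (σ : ℝ) ^ 3 = Real.exp (-(3 * Y)) := by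
      rw [← hσe, ← Real.exp_nat_mul]
      congr 1
      push_cast
      ring
    have h3 : (10 : ℝ) ^ d = Real.exp (Real.log (10 ^ d)) := (Real.exp_log (by positivity)).symm
    have h4 : 10 ^ d * (Measure.infinitePi fun _ : Zd d => gaussianReal 0 1).real G1ᶜ / σ ^ 3 ≤
        Real.exp (-σ ^ (-(1 / 1300) : ℝ)) := by
      rw [div_le_iff₀ (by positivity), h2, hpow, h3, ← Real.exp_add]
      calc Real.exp (Real.log (10 ^ d)) *
            (Measure.infinitePi fun _ : Zd d => gaussianReal 0 1).real G1ᶜ ≤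
            Real.exp (Real.log (10 ^ d)) * Real.exp (-Real.exp (1 / 1200 * Y)) := by gcongr
        _ = Real.exp (Real.log (10 ^ d) + -Real.exp (1 / 1200 * Y)) := (Real.exp_add _ _).symm
        _ ≤ _ := by
          apply Real.exp_le_exp.2
          have h5 : -(-(1 / 1300)) * Y = 1 / 1300 * Y := by ring
          rw [h5]
          linarith
    linarith
  · intro ω hω L hL e he s hs1 hs2
    have hs16 : K * σ ^ (101 / 50 : ℝ) ≤ s := by
      have h1 : σ ^ (101 / 50 : ℝ) = σ ^ (103 / 51 : ℝ) * σ ^ (1 / 2550 : ℝ) := by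
        rw [← Real.rpow_add hσ]
        congr 1
        norm_num
      have h2 : 0 < σ ^ (103 / 51 : ℝ) := by positivity
      calc K * σ ^ (101 / 50 : ℝ) = σ ^ (103 / 51 : ℝ) * (K * σ ^ (1 / 2550 : ℝ)) := by
            rw [h1]; ring
        _ ≤ σ ^ (103 / 51 : ℝ) * 1 := by gcongr
        _ ≤ s := by rw [mul_one]; exact hs1
    have hs17 : 2 * (K * s) ≤ σ ^ (161 / 80 : ℝ) := by
      have h1 : σ ^ (151 / 75 : ℝ) = σ ^ (161 / 80 : ℝ) * σ ^ (1 / 1200 : ℝ) := by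
        rw [← Real.rpow_add hσ]
        congr 1
        norm_num
      have hK0 : 0 < K := by linarith
      calc 2 * (K * s) ≤ 2 * (K * σ ^ (151 / 75 : ℝ)) := by gcongr
        _ = σ ^ (161 / 80 : ℝ) * (2 * K * σ ^ (1 / 1200 : ℝ)) := by rw [h1]; ring
        _ ≤ σ ^ (161 / 80 : ℝ) * 1 := by gcongr
        _ = _ := mul_one _
    intro ι _ u En hEF hcard
    refine hG2 ω hω L hL e (fun e' he' => ?_) s hs16 hs17 ι u En hEF hcard
    have h0 : 2 * (d : ℝ) + σ * 0 - e' = 2 * d - e' := by ring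
    rw [h0, hκd]
    have h1 : |2 * (d : ℝ) - e'| ≤ |2 * (d : ℝ) - e| + |e' - e| := by
      have := abs_add_le (2 * (d : ℝ) - e) (-(e' - e))
      rw [abs_neg] at this
      have h2 : 2 * (d : ℝ) - e + -(e' - e) = 2 * d - e' := by ring
      rwa [h2] at this
    linarith

end Pool.Agent.X133.QE
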